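import Mathlib
import Pool.Agent.Lib_helper58.Planch

/-!
# The L² Mellin transform (project JO, part MEL)

`melL2 c κ = ∫_0^∞ c(y) y^(-1/2 - iκ) dy/y` in the `L²` sense, for `c ∈ L²((0,∞), dy/y²)`.
-/

set_option autoImplicit false

namespace Pool.Agent.JO

open MeasureTheory FourierTransform Filter Topology Set
open scoped ENNReal ComplexConjugate

/-! ## change of variables `y = e^u` -/

theorem integral_Ioi_exp {E : Type*} [NormedAddCommGroup E] [NormedSpace ℝ E] (F : ℝ → E) :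
    ∫ y in Ioi (0 : ℝ), F y = ∫ u : ℝ, Real.exp u • F (Real.exp u) := by
  have h := integral_image_eq_integral_abs_deriv_smul (s := univ) (f := Real.exp)
    (f' := Real.exp) MeasurableSet.univ (fun x _ => (Real.hasDerivAt_exp x).hasDerivWithinAt)
    (Real.exp_injective.injOn) F
  rw [image_univ, Real.range_exp, Measure.restrict_univ] at h
  rw [h]
  simp only [Real.abs_exp]

theorem integrableOn_Ioi_exp {E : Type*} [NormedAddCommGroup E] [NormedSpace ℝ E] (F : ℝ → E) :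
    IntegrableOn F (Ioi (0 : ℝ)) ↔ Integrable (fun u : ℝ => Real.exp u • F (Real.exp u)) := by
  have h := integrableOn_image_iff_integrableOn_abs_deriv_smul (s := univ) (f := Real.exp)
    (f' := Real.exp) MeasurableSet.univ (fun x _ => (Real.hasDerivAt_exp x).hasDerivWithinAt)
    (Real.exp_injective.injOn) F
  rw [image_univ, Real.range_exp, integrableOn_univ] at h
  rw [h]
  simp only [Real.abs_exp]

theorem lintegral_Ioi_exp (F : ℝ → ℝ≥0∞) :
    ∫⁻ y in Ioi (0 : ℝ), F y = ∫⁻ u : ℝ, ENNReal.ofReal (Real.exp u) * F (Real.exp u) := by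
  have h := lintegral_image_eq_lintegral_abs_deriv_mul (s := univ) (f := Real.exp)
    (f' := Real.exp) MeasurableSet.univ (fun x _ => (Real.hasDerivAt_exp x).hasDerivWithinAt)
    (Real.exp_injective.injOn) F
  rw [image_univ, Real.range_exp, Measure.restrict_univ] at h
  rw [h]
  simp only [Real.abs_exp]

/-! ## Definitions -/

/-- `u ↦ c(e^u) e^(-σ u)` -/
noncomputable def fS (σ : ℝ) (c : ℝ → ℂ) (u : ℝ) : ℂ :=
  c (Real.exp u) * ((Real.exp (-(σ * u)) : ℝ) : ℂ)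

open Classical in
/-- The `L²` Mellin transform on the line `Re s = 1/2`: `∫_0^∞ c(y) y^(-1/2 - iκ) dy/y`. -/
noncomputable def melL2 (c : ℝ → ℂ) (κ : ℝ) : ℂ :=
  if h : MemLp (fS (1 / 2) c) 2 volume then
    (𝓕 (h.toLp (fS (1 / 2) c)) : Lp ℂ 2 (volume : Measure ℝ)) (κ / (2 * Real.pi)) else 0

/-- the class of functions for which everything works -/
structure MelOK (c : ℝ → ℂ) : Prop where
  meas : Measurable c
  sq : IntegrableOn (fun y => ‖c y‖ ^ 2 / y ^ 2) (Ioi 0)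
  bdd : ∃ B : ℝ, ∀ y : ℝ, 1 ≤ y → ‖c y‖ ≤ B

theorem measurable_fS {c : ℝ → ℂ} (h : Measurable c) (σ : ℝ) : Measurable (fS σ c) := by
  unfold fS
  have h1 : Measurable fun u : ℝ => c (Real.exp u) := h.comp Real.measurable_exp
  have h2 : Measurable fun u : ℝ => ((Real.exp (-(σ * u)) : ℝ) : ℂ) := by fun_prop
  exact h1.mul h2

theorem norm_fS (c : ℝ → ℂ) (σ u : ℝ) :
    ‖fS σ c u‖ = ‖c (Real.exp u)‖ * Real.exp (-(σ * u)) := by
  unfold fS
  rw [norm_mul, Complex.norm_real, Real.norm_of_nonneg (Real.exp_nonneg _)]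

theorem norm_fS_half_sq (c : ℝ → ℂ) (u : ℝ) :
    ‖fS (1 / 2) c u‖ ^ 2 = Real.exp u • (‖c (Real.exp u)‖ ^ 2 / Real.exp u ^ 2) := by
  rw [norm_fS, mul_pow, smul_eq_mul]
  have h1 : Real.exp (-(1 / 2 * u)) ^ 2 = (Real.exp u)⁻¹ := by
    rw [← Real.exp_nat_mul, ← Real.exp_neg]
    congr 1
    push_cast
    ring
  rw [h1]
  have h2 := Real.exp_pos u
  field_simp

theorem integrable_fS_half_sq {c : ℝ → ℂ} (hs : IntegrableOn (fun y => ‖c y‖ ^ 2 / y ^ 2) (Ioi 0)) :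
    Integrable (fun u => ‖fS (1 / 2) c u‖ ^ 2) := by
  rw [integrableOn_Ioi_exp] at hs
  simp_rw [norm_fS_half_sq]
  exact hs

theorem memLp_of_sq' {g : ℝ → ℂ} (hm : Measurable g) (hs : Integrable (fun u => ‖g u‖ ^ 2)) :
    MemLp g 2 volume :=
  (memLp_two_iff_integrable_sq_norm hm.aestronglyMeasurable).2 hs

theorem memLp_half {c : ℝ → ℂ} (hm : Measurable c)
    (hs : IntegrableOn (fun y => ‖c y‖ ^ 2 / y ^ 2) (Ioi 0)) : MemLp (fS (1 / 2) c) 2 volume :=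
  memLp_of_sq' (measurable_fS hm _) (integrable_fS_half_sq hs)

theorem MelOK.memLp {c : ℝ → ℂ} (h : MelOK c) : MemLp (fS (1 / 2) c) 2 volume :=
  memLp_half h.meas h.sq

theorem melL2_of_memLp {c : ℝ → ℂ} (h : MemLp (fS (1 / 2) c) 2 volume) (κ : ℝ) :
    melL2 c κ = (𝓕 (h.toLp (fS (1 / 2) c)) : Lp ℂ 2 (volume : Measure ℝ)) (κ / (2 * Real.pi)) := by
  unfold melL2
  rw [dif_pos h]

theorem measurable_melL2 (c : ℝ → ℂ) : Measurable (melL2 c) := by
  by_cases h : MemLp (fS (1 / 2) c) 2 volume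
  · have h1 : melL2 c = fun κ => (𝓕 (h.toLp (fS (1 / 2) c)) : Lp ℂ 2 (volume : Measure ℝ))
        (κ / (2 * Real.pi)) := funext (melL2_of_memLp h)
    rw [h1]
    exact (Lp.stronglyMeasurable _).measurable.comp (by fun_prop)
  · have h1 : melL2 c = fun _ => 0 := by
      funext κ
      unfold melL2
      rw [dif_neg h]
    rw [h1]
    exact measurable_const

/-! ## Plancherel -/

theorem ae_comp_div {P : ℝ → Prop} (h : ∀ᵐ ξ : ℝ, P ξ) : ∀ᵐ κ : ℝ, P (κ / (2 * Real.pi)) := by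
  have h2 : Measure.QuasiMeasurePreserving (fun κ : ℝ => κ / (2 * Real.pi)) volume volume := by
    refine ⟨by fun_prop, ?_⟩
    have h3 : (fun κ : ℝ => κ / (2 * Real.pi)) = fun κ => (2 * Real.pi)⁻¹ * κ := by
      funext κ
      rw [div_eq_inv_mul]
    rw [h3, Real.map_volume_mul_left (by positivity)]
    exact Measure.smul_absolutelyContinuous
  exact h2.ae h

theorem integral_comp_div' {E : Type*} [NormedAddCommGroup E] [NormedSpace ℝ E] (g : ℝ → E) :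
    ∫ κ : ℝ, g (κ / (2 * Real.pi)) = (2 * Real.pi) • ∫ ξ : ℝ, g ξ := by
  rw [Measure.integral_comp_div, abs_of_pos (by positivity)]

theorem integrable_comp_div' {E : Type*} [NormedAddCommGroup E] {g : ℝ → E}
    (h : Integrable g) : Integrable fun κ : ℝ => g (κ / (2 * Real.pi)) :=
  h.comp_div (by positivity)

/-- the square of the norm of the `L²` Fourier transform -/
theorem integral_norm_sq_fourier {g : ℝ → ℂ} (h : MemLp g 2 volume) :
    Integrable (fun ξ => ‖(𝓕 (h.toLp g) : Lp ℂ 2 (volume : Measure ℝ)) ξ‖ ^ 2) ∧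
    ∫ ξ, ‖(𝓕 (h.toLp g) : Lp ℂ 2 (volume : Measure ℝ)) ξ‖ ^ 2 = ∫ u, ‖g u‖ ^ 2 := by
  have hm := Lp.memLp (𝓕 (h.toLp g) : Lp ℂ 2 (volume : Measure ℝ))
  refine ⟨(memLp_two_iff_integrable_sq_norm hm.1).1 hm, ?_⟩
  have h1 : ∀ f : Lp ℂ 2 (volume : Measure ℝ), ∫ ξ, ‖f ξ‖ ^ 2 = ‖f‖ ^ 2 := by
    intro f
    have h2 := L2.inner_def (𝕜 := ℂ) f f
    rw [inner_self_eq_norm_sq_to_K] at h2
    have h3 : ∀ ξ, inner ℂ (f ξ) (f ξ) = ((‖f ξ‖ ^ 2 : ℝ) : ℂ) := by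
      intro ξ
      rw [inner_self_eq_norm_sq_to_K]
      norm_cast
    simp_rw [h3] at h2
    rw [integral_complex_ofReal] at h2
    have h4 : ((∫ ξ, ‖f ξ‖ ^ 2 : ℝ) : ℂ) = ((‖f‖ ^ 2 : ℝ) : ℂ) := by
      rw [← h2]
      simp
    exact Complex.ofReal_injective h4
  rw [h1, Lp.norm_fourier_eq, ← h1]
  refine integral_congr_ae ?_
  filter_upwards [h.coeFn_toLp] with u hu
  rw [hu]

theorem integrable_melL2_sq {c : ℝ → ℂ} (h : MemLp (fS (1 / 2) c) 2 volume) :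
    Integrable (fun κ => ‖melL2 c κ‖ ^ 2) := by
  simp_rw [melL2_of_memLp h]
  exact integrable_comp_div' (integral_norm_sq_fourier h).1

/-- Plancherel: `∫ |melL2 c|² dκ = 2π ∫_0^∞ |c|² dy/y²`. -/
theorem integral_melL2_sq {c : ℝ → ℂ} (h : MemLp (fS (1 / 2) c) 2 volume) :
    ∫ κ, ‖melL2 c κ‖ ^ 2 = 2 * Real.pi * ∫ y in Ioi (0 : ℝ), ‖c y‖ ^ 2 / y ^ 2 := by
  simp_rw [melL2_of_memLp h]
  rw [integral_comp_div' (fun ξ => ‖(𝓕 (h.toLp (fS (1 / 2) c)) : Lp ℂ 2 (volume : Measure ℝ)) ξ‖ ^ 2),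
    (integral_norm_sq_fourier h).2, integral_Ioi_exp, smul_eq_mul]
  simp_rw [norm_fS_half_sq]

theorem memLp_melL2 (c : ℝ → ℂ) : MemLp (melL2 c) 2 volume := by
  by_cases h : MemLp (fS (1 / 2) c) 2 volume
  · exact memLp_of_sq' (measurable_melL2 c) (integrable_melL2_sq h)
  · have h1 : melL2 c = fun _ => 0 := by
      funext κ
      unfold melL2
      rw [dif_neg h]
    rw [h1]
    exact MemLp.zero'

/-- Parseval: `∫ melL2 c₁ conj(melL2 c₂) dκ = 2π ∫_0^∞ c₁ conj c₂ dy/y²`. -/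
theorem integral_melL2_mul_conj {c₁ c₂ : ℝ → ℂ} (h₁ : MemLp (fS (1 / 2) c₁) 2 volume)
    (h₂ : MemLp (fS (1 / 2) c₂) 2 volume) :
    ∫ κ, melL2 c₁ κ * conj (melL2 c₂ κ) =
      2 * Real.pi * ∫ y in Ioi (0 : ℝ), c₁ y * conj (c₂ y) / y ^ 2 := by
  simp_rw [melL2_of_memLp h₁, melL2_of_memLp h₂]
  rw [integral_comp_div' (fun ξ => (𝓕 (h₁.toLp (fS (1 / 2) c₁)) : Lp ℂ 2 (volume : Measure ℝ)) ξ *
    conj ((𝓕 (h₂.toLp (fS (1 / 2) c₂)) : Lp ℂ 2 (volume : Measure ℝ)) ξ))]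
  have h3 : ∀ f g : Lp ℂ 2 (volume : Measure ℝ), ∫ ξ, f ξ * conj (g ξ) = inner ℂ g f := by
    intro f g
    rw [L2.inner_def]
    rfl
  rw [h3, Lp.inner_fourier_eq, ← h3, integral_Ioi_exp]
  have h4 : ∫ u, (h₁.toLp (fS (1 / 2) c₁)) u * conj ((h₂.toLp (fS (1 / 2) c₂)) u) =
      ∫ u : ℝ, Real.exp u • (c₁ (Real.exp u) * conj (c₂ (Real.exp u)) / (Real.exp u : ℂ) ^ 2) := by
    refine integral_congr_ae ?_
    filter_upwards [h₁.coeFn_toLp, h₂.coeFn_toLp] with u hu1 hu2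
    rw [hu1, hu2]
    unfold fS
    rw [map_mul, Complex.conj_ofReal, Complex.real_smul]
    have h5 : (Real.exp (-(1 / 2 * u)) : ℝ) * Real.exp (-(1 / 2 * u)) = (Real.exp u)⁻¹ := by
      rw [← Real.exp_add, ← Real.exp_neg]
      congr 1
      ring
    have h6 : ((Real.exp (-(1 / 2 * u)) : ℝ) : ℂ) * ((Real.exp (-(1 / 2 * u)) : ℝ) : ℂ) =
        ((Real.exp u : ℝ) : ℂ)⁻¹ := by
      rw [← Complex.ofReal_mul, h5, Complex.ofReal_inv]
    have h7 : ((Real.exp u : ℝ) : ℂ) ≠ 0 := by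
      exact_mod_cast (Real.exp_pos u).ne'
    calc c₁ (Real.exp u) * ((Real.exp (-(1 / 2 * u)) : ℝ) : ℂ) *
          (conj (c₂ (Real.exp u)) * ((Real.exp (-(1 / 2 * u)) : ℝ) : ℂ))
        = c₁ (Real.exp u) * conj (c₂ (Real.exp u)) *
          (((Real.exp (-(1 / 2 * u)) : ℝ) : ℂ) * ((Real.exp (-(1 / 2 * u)) : ℝ) : ℂ)) := by ring
      _ = _ := by
        rw [h6]
        field_simp
  rw [h4, Complex.real_smul]
  push_cast
  rfl

/-! ## The lines `0 < Re s < 1/2` -/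

theorem fS_shift (c : ℝ → ℂ) (σ u : ℝ) :
    fS σ c u = fS (1 / 2) c u * ((Real.exp ((1 / 2 - σ) * u) : ℝ) : ℂ) := by
  unfold fS
  rw [mul_assoc, ← Complex.ofReal_mul, ← Real.exp_add]
  congr 3
  ring

theorem exp_neg_int {b : ℝ} (hb : 0 < b) : Integrable (fun u => Real.exp (-(b * u)))
    (volume.restrict (Ioi (0 : ℝ))) := by
  have h := exp_neg_integrableOn_Ioi 0 hb
  refine h.congr (Filter.Eventually.of_forall fun u => ?_)
  simp only [neg_mul]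

/-- the majorant on the right half line -/
theorem MelOK.norm_fS_le {c : ℝ → ℂ} {B : ℝ} (hB : ∀ y : ℝ, 1 ≤ y → ‖c y‖ ≤ B) (σ u : ℝ)
    (hu : 0 < u) : ‖fS σ c u‖ ≤ B * Real.exp (-(σ * u)) := by
  rw [norm_fS]
  exact mul_le_mul_of_nonneg_right (hB _ (Real.one_le_exp hu.le)) (Real.exp_nonneg _)

theorem MelOK.integrable_fS {c : ℝ → ℂ} (h : MelOK c) {σ : ℝ} (h0 : 0 < σ) (h1 : σ < 1 / 2) :
    Integrable (fS σ c) := by
  obtain ⟨B, hB⟩ := h.bdd
  rw [← integrableOn_univ, ← Iic_union_Ioi (a := (0 : ℝ))]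
  refine IntegrableOn.union ?_ ?_
  · have e1 : fS σ c = fun u => fS (1 / 2) c u * ((Real.exp ((1 / 2 - σ) * u) : ℝ) : ℂ) :=
      funext (fS_shift c σ)
    rw [e1]
    have h2 : MemLp (fS (1 / 2) c) 2 (volume.restrict (Iic 0)) := h.memLp.restrict _
    have h3 : MemLp (fun u : ℝ => ((Real.exp ((1 / 2 - σ) * u) : ℝ) : ℂ)) 2
        (volume.restrict (Iic 0)) := by
      have h4 : Measurable (fun u : ℝ => ((Real.exp ((1 / 2 - σ) * u) : ℝ) : ℂ)) := by fun_prop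
      refine (memLp_two_iff_integrable_sq_norm h4.aestronglyMeasurable).2 ?_
      have h5 : IntegrableOn (fun u : ℝ => Real.exp ((1 - 2 * σ) * u)) (Iic 0) :=
        integrableOn_exp_mul_Iic (by linarith) 0
      refine h5.congr (Filter.Eventually.of_forall fun u => ?_)
      simp only
      rw [Complex.norm_real, Real.norm_of_nonneg (Real.exp_nonneg _), ← Real.exp_nat_mul]
      congr 1
      push_cast
      ring
    exact h2.integrable_mul h3
  · refine Integrable.mono' ((exp_neg_int h0).const_mul B)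
      (measurable_fS h.meas σ).aestronglyMeasurable ?_
    filter_upwards [ae_restrict_mem measurableSet_Ioi] with u hu
    exact MelOK.norm_fS_le hB σ u hu

/-- pointwise bound for the square of `fS σ c`, `1/4 ≤ σ ≤ 1/2` -/
theorem MelOK.norm_fS_sq_le {c : ℝ → ℂ} {B : ℝ} (hB : ∀ y : ℝ, 1 ≤ y → ‖c y‖ ≤ B) {σ τ : ℝ}
    (hσ : σ ≤ 1 / 2) (hτ : τ ≤ σ) (u : ℝ) :
    ‖fS σ c u‖ ^ 2 ≤ ‖fS (1 / 2) c u‖ ^ 2 +
      (Ioi (0 : ℝ)).indicator (fun u => B ^ 2 * Real.exp (-(2 * τ * u))) u := by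
  rcases le_or_gt u 0 with hu | hu
  · rw [indicator_of_notMem (by simpa using hu), add_zero]
    refine pow_le_pow_left₀ (norm_nonneg _) ?_ 2
    rw [norm_fS, norm_fS]
    refine mul_le_mul_of_nonneg_left (Real.exp_le_exp.2 ?_) (norm_nonneg _)
    nlinarith
  · rw [indicator_of_mem (show u ∈ Ioi (0 : ℝ) from hu)]
    have h1 : ‖fS σ c u‖ ≤ B * Real.exp (-(τ * u)) := by
      refine (MelOK.norm_fS_le hB σ u hu).trans ?_
      have hB0 : 0 ≤ B := (norm_nonneg _).trans (hB 1 le_rfl)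
      refine mul_le_mul_of_nonneg_left (Real.exp_le_exp.2 ?_) hB0
      nlinarith
    have h2 : ‖fS σ c u‖ ^ 2 ≤ (B * Real.exp (-(τ * u))) ^ 2 :=
      pow_le_pow_left₀ (norm_nonneg _) h1 2
    have h3 : (B * Real.exp (-(τ * u))) ^ 2 = B ^ 2 * Real.exp (-(2 * τ * u)) := by
      rw [mul_pow, ← Real.exp_nat_mul]
      congr 2
      push_cast
      ring
    rw [h3] at h2
    have h4 : 0 ≤ ‖fS (1 / 2) c u‖ ^ 2 := by positivity
    linarith

theorem MelOK.integrable_major {c : ℝ → ℂ} (h : MelOK c) (B : ℝ) {τ : ℝ} (hτ : 0 < τ) :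
    Integrable fun u => ‖fS (1 / 2) c u‖ ^ 2 +
      (Ioi (0 : ℝ)).indicator (fun u => B ^ 2 * Real.exp (-(2 * τ * u))) u := by
  refine (integrable_fS_half_sq h.sq).add ?_
  rw [integrable_indicator_iff measurableSet_Ioi]
  exact (exp_neg_int (by positivity : 0 < 2 * τ)).const_mul (B ^ 2)

theorem MelOK.memLp_fS {c : ℝ → ℂ} (h : MelOK c) {σ : ℝ} (h0 : 0 < σ) (h1 : σ ≤ 1 / 2) :
    MemLp (fS σ c) 2 volume := by
  obtain ⟨B, hB⟩ := h.bdd
  refine memLp_of_sq' (measurable_fS h.meas σ) ?_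
  refine Integrable.mono' (h.integrable_major B h0)
    ((measurable_fS h.meas σ).norm.pow_const 2).aestronglyMeasurable ?_
  refine Filter.Eventually.of_forall fun u => ?_
  rw [Real.norm_of_nonneg (by positivity)]
  exact MelOK.norm_fS_sq_le hB h1 le_rfl u

/-- the Mellin transform as a Fourier transform -/
theorem mellin_eq_fourier (c : ℝ → ℂ) (σ κ : ℝ) :
    mellin c (-((σ : ℂ) + (κ : ℂ) * Complex.I)) = 𝓕 (fS σ c) (κ / (2 * Real.pi)) := by
  unfold mellin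
  rw [integral_Ioi_exp, Real.fourier_eq']
  refine integral_congr_ae (Filter.Eventually.of_forall fun u => ?_)
  simp only
  unfold fS
  have hpi : (Real.pi : ℂ) ≠ 0 := by exact_mod_cast Real.pi_ne_zero
  have h0 : ((Real.exp u : ℝ) : ℂ) ≠ 0 := by exact_mod_cast (Real.exp_pos u).ne'
  have h1 : ((Real.exp u : ℝ) : ℂ) ^ (-((σ : ℂ) + (κ : ℂ) * Complex.I) - 1) =
      Complex.exp ((u : ℂ) * (-((σ : ℂ) + (κ : ℂ) * Complex.I) - 1)) := by
    rw [Complex.cpow_def_of_ne_zero h0, Complex.ofReal_exp, Complex.log_exp]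
    · rw [Complex.ofReal_im]
      linarith [Real.pi_pos]
    · rw [Complex.ofReal_im]
      exact Real.pi_pos.le
  rw [h1, Complex.real_smul, smul_eq_mul, smul_eq_mul, Complex.ofReal_exp, Complex.ofReal_exp]
  have h2 : Complex.exp (u : ℂ) * (Complex.exp ((u : ℂ) * (-((σ : ℂ) + (κ : ℂ) * Complex.I) - 1)) *
      c (Real.exp u)) = Complex.exp ((u : ℂ) + (u : ℂ) * (-((σ : ℂ) + (κ : ℂ) * Complex.I) - 1)) *
      c (Real.exp u) := by
    rw [Complex.exp_add]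
    ring
  have h3 : Complex.exp (((-2 * Real.pi * inner ℝ u (κ / (2 * Real.pi)) : ℝ) : ℂ) * Complex.I) *
      (c (Real.exp u) * Complex.exp ((-(σ * u) : ℝ) : ℂ)) =
      Complex.exp (((-2 * Real.pi * inner ℝ u (κ / (2 * Real.pi)) : ℝ) : ℂ) * Complex.I +
        ((-(σ * u) : ℝ) : ℂ)) * c (Real.exp u) := by
    rw [Complex.exp_add]
    ring
  rw [h2, h3]
  congr 2
  simp only [RCLike.inner_apply, conj_trivial]
  push_cast
  field_simp
  ring

theorem MelOK.melL2_fS {c : ℝ → ℂ} (h : MelOK c) {σ : ℝ} (h0 : 0 < σ) (h1 : σ < 1 / 2) :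
    (fun κ : ℝ => mellin c (-((σ : ℂ) + (κ : ℂ) * Complex.I))) =ᵐ[volume]
      fun κ => (𝓕 ((h.memLp_fS h0 h1.le).toLp (fS σ c)) : Lp ℂ 2 (volume : Measure ℝ))
        (κ / (2 * Real.pi)) := by
  have h2 := Pool.Agent.H58.fourier_ae_eq_of_memLp (fS σ c) (h.integrable_fS h0 h1)
    (h.memLp_fS h0 h1.le)
  filter_upwards [ae_comp_div h2] with κ hκ
  rw [mellin_eq_fourier, hκ]

/-- the distance to the critical line -/
theorem MelOK.integral_sub {c : ℝ → ℂ} (h : MelOK c) {σ : ℝ} (h0 : 0 < σ) (h1 : σ < 1 / 2) :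
    Integrable (fun κ : ℝ => ‖mellin c (-((σ : ℂ) + (κ : ℂ) * Complex.I)) - melL2 c κ‖ ^ 2) ∧
    ∫ κ : ℝ, ‖mellin c (-((σ : ℂ) + (κ : ℂ) * Complex.I)) - melL2 c κ‖ ^ 2 =
      2 * Real.pi * ∫ u, ‖fS σ c u - fS (1 / 2) c u‖ ^ 2 := by
  have ha := h.memLp_fS h0 h1.le
  have hb := h.memLp
  have h3 : (fun κ : ℝ => ‖mellin c (-((σ : ℂ) + (κ : ℂ) * Complex.I)) - melL2 c κ‖ ^ 2) =ᵐ[volume]
      fun κ => (fun ξ => ‖(𝓕 ((ha.sub hb).toLp (fS σ c - fS (1 / 2) c)) :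
        Lp ℂ 2 (volume : Measure ℝ)) ξ‖ ^ 2) (κ / (2 * Real.pi)) := by
    have h4 : (𝓕 ((ha.sub hb).toLp (fS σ c - fS (1 / 2) c)) : Lp ℂ 2 (volume : Measure ℝ)) =
        𝓕 (ha.toLp (fS σ c)) - 𝓕 (hb.toLp (fS (1 / 2) c)) := by
      rw [MemLp.toLp_sub]
      exact map_sub (Lp.fourierTransformₗᵢ ℝ ℂ) _ _
    have h5 := Lp.coeFn_sub (𝓕 (ha.toLp (fS σ c)) : Lp ℂ 2 (volume : Measure ℝ))
      (𝓕 (hb.toLp (fS (1 / 2) c)))
    rw [← h4] at h5
    filter_upwards [h.melL2_fS h0 h1, ae_comp_div h5] with κ hκ1 hκ2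
    rw [hκ1, melL2_of_memLp hb, hκ2]
    rfl
  have h6 := integral_norm_sq_fourier (ha.sub hb)
  refine ⟨(integrable_comp_div' h6.1).congr h3.symm, ?_⟩
  rw [integral_congr_ae h3, integral_comp_div' (fun ξ => ‖(𝓕 ((ha.sub hb).toLp
    (fS σ c - fS (1 / 2) c)) : Lp ℂ 2 (volume : Measure ℝ)) ξ‖ ^ 2), h6.2, smul_eq_mul]
  rfl

/-- convergence to the critical line in `L²` -/
theorem MelOK.tendsto_sub {c : ℝ → ℂ} (h : MelOK c) :
    Tendsto (fun n : ℕ => ∫ u, ‖fS (1 / 2 - 1 / ((n : ℝ) + 4)) c u - fS (1 / 2) c u‖ ^ 2) atTop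
      (𝓝 0) := by
  obtain ⟨B, hB⟩ := h.bdd
  have key : Tendsto (fun n : ℕ => ∫ u, ‖fS (1 / 2 - 1 / ((n : ℝ) + 4)) c u - fS (1 / 2) c u‖ ^ 2)
      atTop (𝓝 (∫ _ : ℝ, (0 : ℝ))) := by
    refine tendsto_integral_of_dominated_convergence (fun u => 4 * (‖fS (1 / 2) c u‖ ^ 2 +
      (Ioi (0 : ℝ)).indicator (fun u => B ^ 2 * Real.exp (-(2 * (1 / 4) * u))) u)) ?_ ?_ ?_ ?_
    · intro n
      exact (((measurable_fS h.meas _).sub (measurable_fS h.meas _)).norm.pow_const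
        2).aestronglyMeasurable
    · exact (h.integrable_major B (by norm_num : (0 : ℝ) < 1 / 4)).const_mul 4
    · intro n
      refine Filter.Eventually.of_forall fun u => ?_
      rw [Real.norm_of_nonneg (by positivity)]
      have hn : (0 : ℝ) ≤ (n : ℝ) := Nat.cast_nonneg n
      have hn4 : 1 / ((n : ℝ) + 4) ≤ 1 / 4 := by
        apply one_div_le_one_div_of_le <;> linarith
      have hn5 : 0 < 1 / ((n : ℝ) + 4) := by positivity
      have h1 := MelOK.norm_fS_sq_le hB (σ := 1 / 2 - 1 / ((n : ℝ) + 4)) (τ := 1 / 4)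
        (by linarith) (by linarith) u
      have h2 := MelOK.norm_fS_sq_le hB (σ := 1 / 2) (τ := 1 / 4) le_rfl (by norm_num) u
      have h3 : ‖fS (1 / 2 - 1 / ((n : ℝ) + 4)) c u - fS (1 / 2) c u‖ ^ 2 ≤
          2 * ‖fS (1 / 2 - 1 / ((n : ℝ) + 4)) c u‖ ^ 2 + 2 * ‖fS (1 / 2) c u‖ ^ 2 := by
        have h4 := norm_sub_le (fS (1 / 2 - 1 / ((n : ℝ) + 4)) c u) (fS (1 / 2) c u)
        have h5 : ‖fS (1 / 2 - 1 / ((n : ℝ) + 4)) c u - fS (1 / 2) c u‖ ^ 2 ≤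
          (‖fS (1 / 2 - 1 / ((n : ℝ) + 4)) c u‖ + ‖fS (1 / 2) c u‖) ^ 2 :=
          pow_le_pow_left₀ (norm_nonneg _) h4 2
        nlinarith [sq_nonneg (‖fS (1 / 2 - 1 / ((n : ℝ) + 4)) c u‖ - ‖fS (1 / 2) c u‖)]
      linarith
    · refine Filter.Eventually.of_forall fun u => ?_
      have h1 : Tendsto (fun n : ℕ => (1 / 2 - 1 / ((n : ℝ) + 4) : ℝ)) atTop (𝓝 (1 / 2 - 0)) := by
        refine tendsto_const_nhds.sub ?_
        have h2 : Tendsto (fun n : ℕ => (n : ℝ) + 4) atTop atTop :=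
          tendsto_atTop_add_const_right _ _ tendsto_natCast_atTop_atTop
        simp only [one_div]
        exact h2.inv_tendsto_atTop
      rw [sub_zero] at h1
      have h3 : Continuous fun σ : ℝ => ‖fS σ c u - fS (1 / 2) c u‖ ^ 2 := by
        unfold fS
        fun_prop
      have h4 := (h3.tendsto (1 / 2)).comp h1
      simp only [sub_self, norm_zero, ne_eq, OfNat.ofNat_ne_zero, not_false_eq_true,
        zero_pow] at h4
      exact h4
  simpa using key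

theorem MelOK.exists_subseq {ι : Type*} [Fintype ι] {c : ι → ℝ → ℂ} (h : ∀ i, MelOK (c i)) :
    ∃ σ : ℕ → ℝ, (∀ n, 0 < σ n ∧ σ n < 1 / 2) ∧ Tendsto σ atTop (𝓝 (1 / 2)) ∧
      ∀ᵐ κ : ℝ, ∀ i, Tendsto (fun n => mellin (c i) (-((σ n : ℂ) + (κ : ℂ) * Complex.I))) atTop
        (𝓝 (melL2 (c i) κ)) := by
  set σ₀ : ℕ → ℝ := fun n => 1 / 2 - 1 / ((n : ℝ) + 4) with hσ₀
  have hσ0 : ∀ n, 0 < σ₀ n ∧ σ₀ n < 1 / 2 := by
    intro n
    have hn : (0 : ℝ) ≤ (n : ℝ) := Nat.cast_nonneg n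
    have hn4 : 1 / ((n : ℝ) + 4) ≤ 1 / 4 := by
      apply one_div_le_one_div_of_le <;> linarith
    have hn5 : 0 < 1 / ((n : ℝ) + 4) := by positivity
    simp only [hσ₀]
    constructor <;> linarith
  have hσt : Tendsto σ₀ atTop (𝓝 (1 / 2)) := by
    have h2 : Tendsto (fun n : ℕ => (n : ℝ) + 4) atTop atTop :=
      tendsto_atTop_add_const_right _ _ tendsto_natCast_atTop_atTop
    have h3 : Tendsto (fun n : ℕ => 1 / 2 - ((n : ℝ) + 4)⁻¹) atTop (𝓝 (1 / 2 - 0)) :=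
      tendsto_const_nhds.sub h2.inv_tendsto_atTop
    simpa [hσ₀] using h3
  set S : ℕ → ℝ → ℝ := fun n κ => ∑ i, ‖mellin (c i) (-((σ₀ n : ℂ) + (κ : ℂ) * Complex.I)) -
    melL2 (c i) κ‖ ^ 2 with hS
  have hSi : ∀ n, Integrable (S n) := by
    intro n
    exact integrable_finsetSum _ fun i _ => ((h i).integral_sub (hσ0 n).1 (hσ0 n).2).1
  have hS0 : ∀ n κ, 0 ≤ S n κ := by
    intro n κ
    exact Finset.sum_nonneg fun i _ => by positivity
  have hSt : Tendsto (fun n => ∫ κ, S n κ) atTop (𝓝 0) := by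
    have h1 : ∀ n, ∫ κ, S n κ = ∑ i, 2 * Real.pi * ∫ u, ‖fS (σ₀ n) (c i) u -
        fS (1 / 2) (c i) u‖ ^ 2 := by
      intro n
      simp only [hS]
      rw [integral_finsetSum _ fun i _ => ((h i).integral_sub (hσ0 n).1 (hσ0 n).2).1]
      exact Finset.sum_congr rfl fun i _ => ((h i).integral_sub (hσ0 n).1 (hσ0 n).2).2
    simp_rw [h1]
    have h2 : Tendsto (fun n => ∑ i, 2 * Real.pi * ∫ u, ‖fS (σ₀ n) (c i) u -
        fS (1 / 2) (c i) u‖ ^ 2) atTop (𝓝 (∑ _i : ι, 2 * Real.pi * 0)) :=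
      tendsto_finsetSum _ fun i _ => (h i).tendsto_sub.const_mul _
    simpa using h2
  have hSL : Tendsto (fun n => eLpNorm (S n - 0) 1 volume) atTop (𝓝 0) := by
    have h1 : ∀ n, eLpNorm (S n - 0) 1 volume = ENNReal.ofReal (∫ κ, S n κ) := by
      intro n
      rw [sub_zero, eLpNorm_one_eq_lintegral_enorm,
        ofReal_integral_eq_lintegral_ofReal (hSi n) (Filter.Eventually.of_forall (hS0 n))]
      refine lintegral_congr fun κ => ?_
      rw [Real.enorm_eq_ofReal (hS0 n κ)]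
    simp_rw [h1]
    simpa using ENNReal.tendsto_ofReal hSt
  have hm := tendstoInMeasure_of_tendsto_eLpNorm (p := 1) one_ne_zero
    (fun n => (hSi n).aestronglyMeasurable) aestronglyMeasurable_zero hSL
  obtain ⟨ns, hns, hae⟩ := hm.exists_seq_tendsto_ae
  refine ⟨fun n => σ₀ (ns n), fun n => hσ0 _, hσt.comp hns.tendsto_atTop, ?_⟩
  filter_upwards [hae] with κ hκ i
  have h2 : Tendsto (fun n => ‖mellin (c i) (-((σ₀ (ns n) : ℂ) + (κ : ℂ) * Complex.I)) -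
      melL2 (c i) κ‖ ^ 2) atTop (𝓝 0) := by
    refine squeeze_zero (fun n => by positivity) (fun n => ?_) hκ
    exact Finset.single_le_sum (f := fun i => ‖mellin (c i) (-((σ₀ (ns n) : ℂ) +
      (κ : ℂ) * Complex.I)) - melL2 (c i) κ‖ ^ 2) (fun i _ => by positivity) (Finset.mem_univ i)
  have h3 : Tendsto (fun n => ‖mellin (c i) (-((σ₀ (ns n) : ℂ) + (κ : ℂ) * Complex.I)) -
      melL2 (c i) κ‖) atTop (𝓝 0) := by
    have h4 := (Real.continuous_sqrt.tendsto 0).comp h2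
    simp only [Real.sqrt_zero] at h4
    refine h4.congr fun n => ?_
    simp only [Function.comp]
    exact Real.sqrt_sq (norm_nonneg _)
  exact tendsto_iff_norm_sub_tendsto_zero.2 h3

/-- **Relations on the critical line.**  A linear relation between Mellin transforms with
continuous coefficients on `0 < Re s < 1/2` holds on the critical line. -/
theorem melL2_rel {ι : Type*} [Fintype ι] {c : ι → ℝ → ℂ} (h : ∀ i, MelOK (c i)) (G : ι → ℂ → ℂ)
    (hG : ∀ i (κ : ℝ), ContinuousWithinAt (G i) {s : ℂ | 0 < s.re ∧ s.re < 1 / 2}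
      ((1 / 2 : ℝ) + (κ : ℂ) * Complex.I))
    (hrel : ∀ s : ℂ, 0 < s.re → s.re < 1 / 2 → ∑ i, mellin (c i) (-s) * G i s = 0) :
    ∀ᵐ κ : ℝ, ∑ i, melL2 (c i) κ * G i ((1 / 2 : ℝ) + (κ : ℂ) * Complex.I) = 0 := by
  obtain ⟨σ, hσ, hσt, hae⟩ := MelOK.exists_subseq h
  filter_upwards [hae] with κ hκ
  have h1 : ∀ n, ((σ n : ℂ) + (κ : ℂ) * Complex.I).re = σ n := by
    intro n
    simp
  have h2 : Tendsto (fun n => (σ n : ℂ) + (κ : ℂ) * Complex.I) atTop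
      (𝓝[{s : ℂ | 0 < s.re ∧ s.re < 1 / 2}] ((1 / 2 : ℝ) + (κ : ℂ) * Complex.I)) := by
    refine tendsto_nhdsWithin_iff.2 ⟨?_, ?_⟩
    · exact ((Complex.continuous_ofReal.tendsto _).comp hσt).add_const _
    · refine Filter.Eventually.of_forall fun n => ?_
      constructor
      · rw [h1]
        exact (hσ n).1
      · rw [h1]
        exact (hσ n).2
  have h3 : Tendsto (fun n => ∑ i, mellin (c i) (-((σ n : ℂ) + (κ : ℂ) * Complex.I)) *
      G i ((σ n : ℂ) + (κ : ℂ) * Complex.I)) atTop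
      (𝓝 (∑ i, melL2 (c i) κ * G i ((1 / 2 : ℝ) + (κ : ℂ) * Complex.I))) := by
    refine tendsto_finsetSum _ fun i _ => ?_
    exact (hκ i).mul ((hG i κ).tendsto.comp h2)
  have h4 : (fun n => ∑ i, mellin (c i) (-((σ n : ℂ) + (κ : ℂ) * Complex.I)) *
      G i ((σ n : ℂ) + (κ : ℂ) * Complex.I)) = fun _ => 0 := by
    funext n
    refine hrel _ ?_ ?_
    · rw [h1]
      exact (hσ n).1
    · rw [h1]
      exact (hσ n).2
  rw [h4] at h3
  exact (tendsto_nhds_unique h3 tendsto_const_nhds)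

/-- if the Mellin transform extends continuously to the critical line, `melL2` is its boundary
value -/
theorem melL2_eq_of_continuous {c : ℝ → ℂ} (h : MelOK c) (G : ℂ → ℂ)
    (hG : ∀ κ : ℝ, ContinuousWithinAt G {s : ℂ | 0 < s.re ∧ s.re < 1 / 2}
      ((1 / 2 : ℝ) + (κ : ℂ) * Complex.I))
    (hrel : ∀ s : ℂ, 0 < s.re → s.re < 1 / 2 → mellin c (-s) = G s) :
    ∀ᵐ κ : ℝ, melL2 c κ = G ((1 / 2 : ℝ) + (κ : ℂ) * Complex.I) := by
  obtain ⟨σ, hσ, hσt, hae⟩ := MelOK.exists_subseq (c := fun _ : Unit => c) (fun _ => h)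
  filter_upwards [hae] with κ hκ
  have h1 : ∀ n, ((σ n : ℂ) + (κ : ℂ) * Complex.I).re = σ n := by
    intro n
    simp
  have h2 : Tendsto (fun n => (σ n : ℂ) + (κ : ℂ) * Complex.I) atTop
      (𝓝[{s : ℂ | 0 < s.re ∧ s.re < 1 / 2}] ((1 / 2 : ℝ) + (κ : ℂ) * Complex.I)) := by
    refine tendsto_nhdsWithin_iff.2 ⟨?_, ?_⟩
    · exact ((Complex.continuous_ofReal.tendsto _).comp hσt).add_const _
    · refine Filter.Eventually.of_forall fun n => ?_
      constructor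
      · rw [h1]
        exact (hσ n).1
      · rw [h1]
        exact (hσ n).2
  have h3 := (hG κ).tendsto.comp h2
  have h4 : (fun n => mellin c (-((σ n : ℂ) + (κ : ℂ) * Complex.I))) =
      G ∘ fun n => (σ n : ℂ) + (κ : ℂ) * Complex.I := by
    funext n
    refine hrel _ ?_ ?_
    · rw [h1]
      exact (hσ n).1
    · rw [h1]
      exact (hσ n).2
  have h5 := hκ ()
  rw [h4] at h5
  exact tendsto_nhds_unique h5 h3

/-! ## Algebra -/

theorem fS_add (σ : ℝ) (c₁ c₂ : ℝ → ℂ) :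
    fS σ (fun y => c₁ y + c₂ y) = fun u => fS σ c₁ u + fS σ c₂ u := by
  funext u
  unfold fS
  ring

theorem MelOK.add {c₁ c₂ : ℝ → ℂ} (h₁ : MelOK c₁) (h₂ : MelOK c₂) :
    MelOK (fun y => c₁ y + c₂ y) := by
  refine ⟨h₁.meas.add h₂.meas, ?_, ?_⟩
  · have h3 : IntegrableOn (fun y => 2 * (‖c₁ y‖ ^ 2 / y ^ 2) + 2 * (‖c₂ y‖ ^ 2 / y ^ 2))
        (Ioi (0 : ℝ)) := (h₁.sq.const_mul 2).add (h₂.sq.const_mul 2)
    refine Integrable.mono' h3 ?_ (Filter.Eventually.of_forall fun y => ?_)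
    · exact (((h₁.meas.add h₂.meas).norm.pow_const 2).div (by fun_prop)).aestronglyMeasurable
    · rw [Real.norm_of_nonneg (by positivity)]
      have h4 : ‖c₁ y + c₂ y‖ ^ 2 ≤ 2 * ‖c₁ y‖ ^ 2 + 2 * ‖c₂ y‖ ^ 2 := by
        have h5 : ‖c₁ y + c₂ y‖ ^ 2 ≤ (‖c₁ y‖ + ‖c₂ y‖) ^ 2 :=
          pow_le_pow_left₀ (norm_nonneg _) (norm_add_le _ _) 2
        nlinarith [sq_nonneg (‖c₁ y‖ - ‖c₂ y‖)]
      calc ‖c₁ y + c₂ y‖ ^ 2 / y ^ 2 ≤ (2 * ‖c₁ y‖ ^ 2 + 2 * ‖c₂ y‖ ^ 2) / y ^ 2 :=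
            div_le_div_of_nonneg_right h4 (by positivity)
        _ = _ := by ring
  · obtain ⟨B₁, hB₁⟩ := h₁.bdd
    obtain ⟨B₂, hB₂⟩ := h₂.bdd
    exact ⟨B₁ + B₂, fun y hy => (norm_add_le _ _).trans (add_le_add (hB₁ y hy) (hB₂ y hy))⟩

theorem MelOK.const_mul {c : ℝ → ℂ} (h : MelOK c) (a : ℂ) : MelOK (fun y => a * c y) := by
  refine ⟨h.meas.const_mul a, ?_, ?_⟩
  · refine (h.sq.const_mul (‖a‖ ^ 2)).congr (Filter.Eventually.of_forall fun y => ?_)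
    simp only [norm_mul, mul_pow]
    ring
  · obtain ⟨B, hB⟩ := h.bdd
    refine ⟨‖a‖ * B, fun y hy => ?_⟩
    rw [norm_mul]
    exact mul_le_mul_of_nonneg_left (hB y hy) (norm_nonneg _)

theorem MelOK.sum {ι : Type*} (s : Finset ι) {c : ι → ℝ → ℂ} (h : ∀ i ∈ s, MelOK (c i)) :
    MelOK (fun y => ∑ i ∈ s, c i y) := by
  classical
  induction s using Finset.induction_on with
  | empty =>
    refine ⟨by simp, by simp, ⟨0, by simp⟩⟩
  | insert a s ha ih =>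
    have h1 : (fun y => ∑ i ∈ insert a s, c i y) = fun y => c a y + ∑ i ∈ s, c i y := by
      funext y
      rw [Finset.sum_insert ha]
    rw [h1]
    exact (h a (Finset.mem_insert_self a s)).add
      (ih fun i hi => h i (Finset.mem_insert_of_mem hi))

theorem MelOK.comp_mul {c : ℝ → ℂ} (h : MelOK c) {b : ℝ} (hb : 0 < b)
    (hbd : ∃ B, ∀ y, min 1 b ≤ y → ‖c y‖ ≤ B) : MelOK (fun y => c (b * y)) := by
  refine ⟨h.meas.comp (measurable_const_mul b), ?_, ?_⟩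
  · have h1 := (integrableOn_Ioi_comp_mul_left_iff (fun y => ‖c y‖ ^ 2 / y ^ 2) 0 hb).2
      (by rw [mul_zero]; exact h.sq)
    refine (h1.const_mul (b ^ 2)).congr (Filter.Eventually.of_forall fun y => ?_)
    simp only
    rcases eq_or_ne y 0 with hy | hy
    · subst hy
      simp
    · field_simp
  · obtain ⟨B, hB⟩ := hbd
    refine ⟨B, fun y hy => hB _ ?_⟩
    refine (min_le_right _ _).trans ?_
    nlinarith

end Pool.Agent.JO
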