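import Mathlib

/-!
# Jutila's question (MP_f4574f_nt): definitions used in the final statement

Holomorphic Hecke eigenforms and Hecke-Maass forms (weights `0` and `1`) for `Γ₀(N)` with
nebentypus, and the statement that the error term of the second moment of the L-function on the
critical line is `Ω(√T)`.
-/

set_option autoImplicit false

namespace Pool.Agent.JO

open Complex Filter Topology MeasureTheory
open UpperHalfPlane hiding I
open scoped MatrixGroups

/-! ## Holomorphic forms -/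

/-- Normalised Hecke relations away from the level: `lam 1 = 1` and
`lam p * lam n = lam (n p) + χ(p) lam (n / p)` for all primes `p` not dividing `N` and all
`n ≥ 1` (the last term is absent when `p` does not divide `n`). -/
structure HeckeRelations (N : ℕ) (χ : DirichletCharacter ℂ N) (lam : ℕ → ℂ) : Prop where
  one : lam 1 = 1
  mul : ∀ p : ℕ, p.Prime → ¬ p ∣ N → ∀ n : ℕ, 1 ≤ n →
    lam p * lam n = lam (n * p) + (if p ∣ n then χ (p : ZMod N) * lam (n / p) else 0)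

/-- `f` is a holomorphic cusp form on `Γ₁(N)` of weight `k` with nebentypus `χ`, it is a
normalised Hecke eigenform away from the level (every primitive newform is), and
`lam n = a(n) n^(-(k-1)/2)` are its Fourier coefficients in the analytic normalisation. -/
structure IsHolEigenform (N k : ℕ) (χ : DirichletCharacter ℂ N)
    (f : CuspForm (CongruenceSubgroup.Gamma1 N) (k : ℤ)) (lam : ℕ → ℂ) : Prop where
  expansion : ∀ z : ℍ, HasSum (fun n : ℕ =>
      lam (n + 1) * ((((n : ℝ) + 1) ^ (((k : ℝ) - 1) / 2) : ℝ) : ℂ) *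
        cexp (2 * (Real.pi : ℂ) * I * ((n : ℂ) + 1) * (z : ℂ))) (f z)
  nebentypus : ∀ γ : SL(2, ℤ), (N : ℤ) ∣ γ 1 0 → ∀ z : ℍ,
      f (γ • z) = χ ((γ 1 1 : ℤ) : ZMod N) * (denom γ z) ^ k * f z
  hecke : HeckeRelations N χ lam

/-! ## Maass forms -/

/-- The partial derivative `∂f/∂x` of a function on the upper half plane, `z = x + iy`. -/
noncomputable def dX (f : ℍ → ℂ) (z : ℍ) : ℂ :=
  deriv (fun t : ℝ => f (ofComplex ((z : ℂ) + t))) 0

/-- The partial derivative `∂f/∂y` of a function on the upper half plane, `z = x + iy`. -/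
noncomputable def dY (f : ℍ → ℂ) (z : ℍ) : ℂ :=
  deriv (fun t : ℝ => f (ofComplex ((z : ℂ) + t * I))) 0

/-- The Laplacian of weight `k`: `y² (∂²/∂x² + ∂²/∂y²) - i k y ∂/∂x`. -/
noncomputable def lap (k : ℕ) (f : ℍ → ℂ) (z : ℍ) : ℂ :=
  (z.im : ℂ) ^ 2 * (dX (dX f) z + dY (dY f) z) - I * k * z.im * dX f z

/-- `f` is a Maass cusp form of level `N`, nebentypus `χ`, weight `k` and Laplace eigenvalue `ev`:
it is twice continuously differentiable, `(Δ_k + ev) f = 0`,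
`f(γz) = χ(d) ((cz+d)/|cz+d|)^k f(z)` for `γ = (a b; c d)` in `Γ₀(N)`, and `f` vanishes at all
cusps: `f(γz) → 0` as `Im z → ∞` for every `γ` in `SL₂(ℤ)`. -/
structure IsMaassForm (N : ℕ) (χ : DirichletCharacter ℂ N) (k : ℕ) (ev : ℝ) (f : ℍ → ℂ) :
    Prop where
  smooth : ContDiffOn ℝ 2 (fun z : ℂ => f (ofComplex z)) {z | 0 < z.im}
  eigen : ∀ z : ℍ, lap k f z = -(ev : ℂ) * f z
  automorphic : ∀ γ : SL(2, ℤ), (N : ℤ) ∣ γ 1 0 → ∀ z : ℍ,
    f (γ • z) = χ ((γ 1 1 : ℤ) : ZMod N) * (denom γ z / ‖denom γ z‖) ^ k * f z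
  cusp : ∀ γ : SL(2, ℤ), Tendsto (fun z : ℍ => f (γ • z)) atImInfty (𝓝 0)

/-- The Hecke operator `T_n`:
`(T_n f)(z) = n^{-1/2} ∑_{ad = n} χ(a) ∑_{0 ≤ b < d} f((az + b)/d)`. -/
noncomputable def heckeT {N : ℕ} (χ : DirichletCharacter ℂ N) (n : ℕ) (f : ℍ → ℂ) (z : ℍ) : ℂ :=
  ((√(n : ℝ) : ℝ) : ℂ)⁻¹ * ∑ p ∈ n.divisorsAntidiagonal, χ (p.1 : ZMod N) *
    ∑ b ∈ Finset.range p.2, f (ofComplex (((p.1 : ℂ) * z + b) / p.2))

/-- `f` is a nonzero Hecke-Maass form of level `N`, nebentypus `χ`, weight `k` (`0` or `1`) and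
Laplace eigenvalue `ev`, with Hecke eigenvalues `a n`: a Maass cusp form with `T_n f = a(n) f` for
ALL `n ≥ 1`.  All Hecke-Maass newforms are of this kind, and `L(f, s) = ∑ a(n) n^{-s}`.  The
eigenvalue is `1/4 + r² > 0` for `k = 0` and `1/4 + r² ≥ 1/4` for `k = 1` (this holds for all Maass
cusp forms which are not zero). -/
structure IsHeckeMaass (N : ℕ) (χ : DirichletCharacter ℂ N) (k : ℕ) (ev : ℝ) (f : ℍ → ℂ)
    (a : ℕ → ℂ) : Prop extends IsMaassForm N χ k ev f where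
  weight : k = 0 ∧ 0 < ev ∨ k = 1 ∧ 1 / 4 ≤ ev
  hecke : ∀ n : ℕ, 0 < n → ∀ z : ℍ, heckeT χ n f z = a n * f z
  ne_zero : ∃ z : ℍ, f z ≠ 0

/-! ## The conclusion -/

/-- `Error(T)`: the second moment of `L` on the critical line minus `A T log T + B T`. -/
noncomputable def errorTerm (L : ℂ → ℂ) (A B T : ℝ) : ℝ :=
  (∫ t in (0 : ℝ)..T, ‖L (1 / 2 + (t : ℂ) * I)‖ ^ 2) - (A * T * Real.log T + B * T)

/-- `E(T) = Ω(√T)`, that is, `limsup |E(T)| / √T > 0` as `T → ∞`. -/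
def IsOmegaSqrt (E : ℝ → ℝ) : Prop :=
  ∃ c : ℝ, 0 < c ∧ ∃ᶠ T : ℝ in atTop, c * √T ≤ |E T|

/-- The Dirichlet series `∑ a(n) n^(-s)` converges absolutely for `Re s > 1` and has an entire
continuation `L`, and for all real `A`, `B` the error term of its second moment is `Ω(√T)`. -/
def OmegaConclusion (a : ℕ → ℂ) : Prop :=
  ∃ L : ℂ → ℂ, Differentiable ℂ L ∧
    (∀ s : ℂ, 1 < s.re → LSeriesSummable a s ∧ L s = LSeries a s) ∧
    ∀ A B : ℝ, IsOmegaSqrt (errorTerm L A B)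

/-- The holomorphic half. -/
def HolStatement : Prop :=
  ∀ (N : ℕ) [NeZero N] (χ : DirichletCharacter ℂ N) (k : ℕ)
    (f : CuspForm (CongruenceSubgroup.Gamma1 N) (k : ℤ)) (lam : ℕ → ℂ),
    1 ≤ k → IsHolEigenform N k χ f lam → OmegaConclusion lam

/-- The Maass half. -/
def MaassStatement : Prop :=
  ∀ (N : ℕ) [NeZero N] (χ : DirichletCharacter ℂ N) (k : ℕ) (ev : ℝ) (f : ℍ → ℂ) (a : ℕ → ℂ),
    IsHeckeMaass N χ k ev f a → OmegaConclusion a

/-- a function which is not `Ω(√T)` is `o(√T)` -/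
theorem isLittleO_of_not_isOmegaSqrt {E : ℝ → ℝ} (h : ¬ IsOmegaSqrt E) :
    E =o[atTop] fun T : ℝ => √T := by
  rw [Asymptotics.isLittleO_iff]
  intro c hc
  by_contra h1
  apply h
  refine ⟨c, hc, ?_⟩
  rw [Filter.not_eventually] at h1
  refine h1.mono ?_
  intro T hT
  rw [Real.norm_eq_abs, Real.norm_of_nonneg (Real.sqrt_nonneg T)] at hT
  exact le_of_lt (not_le.1 hT)

end Pool.Agent.JO
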