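import Pool.Agent.Lib_helper63.JO.Defs
import Pool.Agent.Lib_helper84.JO.Final

/-!
# The common interface for holomorphic and Maass forms (project JO)

`u(z) = y^(k/2) f(z)` for a holomorphic form `f` of weight `k`, `u = f` for a Maass form of weight
`k = 0, 1`.  `liftK k u` is the family on `SL₂(ℝ)` attached to `u`.
-/

set_option autoImplicit false

namespace Pool.Agent.JO

open Complex MeasureTheory Filter Topology
open UpperHalfPlane hiding I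
open scoped MatrixGroups ComplexConjugate

/-- the automorphy factor `j(g, i) = c i + d` -/
noncomputable def jI (g : SL(2, ℝ)) : ℂ := ((g 1 0 : ℝ) : ℂ) * I + ((g 1 1 : ℝ) : ℂ)

/-- `j(g, i) / |j(g, i)|` -/
noncomputable def juI (g : SL(2, ℝ)) : ℂ := jI g / ‖jI g‖

/-- `k(a) = (cos a, sin a; -sin a, cos a)` -/
noncomputable def kK (a : ℝ) : SL(2, ℝ) :=
  ⟨!![Real.cos a, Real.sin a; -Real.sin a, Real.cos a], by
    rw [Matrix.det_fin_two_of]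
    nlinarith [Real.sin_sq_add_cos_sq a]⟩

/-- the common properties of `u = y^(k/2) f` (holomorphic) and `u = f` (Maass) -/
structure WForm (N : ℕ) (χ : DirichletCharacter ℂ N) (k : ℕ) (lam : ℕ → ℂ) (u : ℍ → ℂ) : Prop where
  cont : Continuous u
  aut : ∀ γ : SL(2, ℤ), (N : ℤ) ∣ γ 1 0 → ∀ z : ℍ,
    u (γ • z) = χ ((γ 1 1 : ℤ) : ZMod N) * (denom γ z / ‖denom γ z‖) ^ k * u z
  decay : ∃ C c : ℝ, 0 < c ∧ ∀ (γ : SL(2, ℤ)) (z : ℍ), 1 / 2 ≤ z.im →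
    ‖u (γ • z)‖ ≤ C * Real.exp (-c * z.im)
  hecke : ∀ p : ℕ, p.Prime → ¬ p ∣ N → ∀ z : ℍ, heckeT χ p u z = lam p * u z

open scoped Classical in
/-- a lift of `s` to `SL₂(ℤ)` -/
noncomputable def lft {N : ℕ} (s : QN N) : SL(2, ℤ) :=
  if h : ∃ γ : SL(2, ℤ), red N γ = s then h.choose else 1

/-- the family on `SL₂(ℝ)` of a function of weight `k` on `ℍ`:
`s = γ mod N ↦ u(γ⁻¹ g i) (j(γ⁻¹ g, i)/|j(γ⁻¹ g, i)|)^(-k)` -/
noncomputable def liftK {N : ℕ} (k : ℕ) (u : ℍ → ℂ) (s : QN N) (g : SL(2, ℝ)) : ℂ :=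
  u (((toR (lft s))⁻¹ * g) • UpperHalfPlane.I) * (juI ((toR (lft s))⁻¹ * g) ^ k)⁻¹

/-- the family of `|u|²` -/
noncomputable def phiF {N : ℕ} (u : ℍ → ℂ) (s : QN N) (z : ℍ) : ℂ :=
  ((‖u ((lft s)⁻¹ • z)‖ ^ 2 : ℝ) : ℂ)

/-- the family `Ψ_w(g) = Φ(g) conj Φ(g g_w)`, `g_w = n(x) a(v)`, `w = x + i v` -/
noncomputable def PsiF {N : ℕ} (k : ℕ) (u : ℍ → ℂ) (w : ℍ) (s : QN N) (g : SL(2, ℝ)) : ℂ :=
  liftK k u s g * conj (liftK k u s (g * gg w 0))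

/-- Fourier expansions of a family at all cusps (width `N`), `Wp` for the frequencies `n > 0`,
`Wm` for the frequencies `n < 0` -/
def HasExp {N : ℕ} (Wp Wm : ℝ → ℂ) (F : QN N → SL(2, ℝ) → ℂ) : Prop :=
  ∀ s : QN N, ∃ r : ℤ → ℂ, r 0 = 0 ∧
    (∀ y : ℝ, 0 < y → Summable fun n : ℤ =>
      ‖r n * (if 0 < n then Wp (|(n : ℝ)| * y / N) else Wm (|(n : ℝ)| * y / N))‖) ∧
    ∀ z : ℍ, F s (gg z 0) = ∑' n : ℤ,
      r n * (if 0 < n then Wp (|(n : ℝ)| * z.im / N) else Wm (|(n : ℝ)| * z.im / N)) *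
        cexp (2 * Real.pi * I * (n * z.re / N : ℝ))

/-- the ray function `F(θ) = ∫_0^∞ |u(r e^{iθ})|² dr/r` -/
noncomputable def rayF (u : ℍ → ℂ) (θ : ℝ) : ℂ := ray (fun z => ((‖u z‖ ^ 2 : ℝ) : ℂ)) θ

end Pool.Agent.JO
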