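import Pool.Agent.Lib_helper32.JO.Stmt
import Pool.Agent.Lib_helper37.JO.A7

/-!
# Project JO: target statements for the parts S + E6, ZF and B (top level interface)
-/

set_option autoImplicit false

namespace Pool.Agent.JO

open Complex MeasureTheory Filter Topology
open UpperHalfPlane hiding I
open Pool.Agent.Lib_helper37.JO (HJ HJ1 strip)
open scoped MatrixGroups ComplexConjugate

/-- the continuous part of the ray function -/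
noncomputable def Fct {N : ℕ} [NeZero N] (Zf : ZMod N × ZMod N → ℝ → ℝ → ℂ) (u : ℍ → ℂ) (θ : ℂ) :
    ℂ :=
  ∑ v ∈ PV N, ((∫ κ : ℝ, aM (N := N) u v κ * Zf v 1 κ * HJ 1 κ θ) +
    ∫ κ : ℝ, aM (N := N) u v κ * Zf v (-1) κ * HJ (-1) κ θ)

/-- bounds for the zeta factors (part ZF) -/
structure ZfB {N : ℕ} (Zf : ZMod N × ZMod N → ℝ → ℝ → ℂ) : Prop where
  meas : ∀ v σ, Measurable (Zf v σ)
  sup : ∃ C d : ℝ, 0 < d ∧ ∀ v σ κ, ‖Zf v σ κ‖ ≤ C * (1 + |κ|) ^ (1 / 2 - d)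
  ms : ∀ e : ℝ, 0 < e → ∃ C : ℝ, ∀ v σ, ∀ K : ℝ, 1 ≤ K →
    ∫ κ in (-K)..K, ‖Zf v σ κ‖ ^ 2 ≤ C * K ^ (1 + e)

/-- exponential decay of the Mellin transforms (from part B1) -/
def aMDec (N : ℕ) [NeZero N] (u : ℍ → ℂ) : Prop :=
  ∀ v ∈ PV N, ∀ c : ℝ, 0 < c →
    Integrable fun κ : ℝ => ‖aM (N := N) u v κ‖ ^ 2 * Real.exp ((Real.pi - c) * |κ|)

/-- the conclusion of the spectral part: the ray function is the continuous part plus a function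
which is regular near the imaginary axis -/
def SEConcl {N : ℕ} [NeZero N] (Zf : ZMod N × ZMod N → ℝ → ℝ → ℂ) (u : ℍ → ℂ) : Prop :=
  ∃ R : ℂ → ℂ, DifferentiableOn ℂ R strip ∧
    (∀ θ : ℝ, θ ∈ Set.Ioo (0 : ℝ) Real.pi → rayF u θ = Fct (N := N) Zf u θ + R θ) ∧
    ∀ η₁ η₂ : ℝ, 0 < η₁ → ∃ C : ℝ, ∀ ε η : ℝ, 0 < ε → ε ≤ 1 → η₁ ≤ η → η ≤ η₂ →
      ‖R (ε + η * I)‖ ≤ C

/-- the target statement of S + E6 for holomorphic forms (`Zf` is the explicit function of E6) -/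
def SEHol (N : ℕ) [NeZero N] (Zf : ZMod N × ZMod N → ℝ → ℝ → ℂ) : Prop :=
  ∀ (χ : DirichletCharacter ℂ N) (k : ℕ) (lam : ℕ → ℂ) (u : ℍ → ℂ), WForm N χ k lam u →
    aMDec N u → ∀ a b : ℝ,
    (fun θ : ℝ => rayF u θ - ((a * Real.log θ⁻¹ + b : ℝ) : ℂ)) =o[𝓝[>] 0] (fun θ : ℝ => √θ) →
    SEConcl (N := N) Zf u

/-- the target statement of part B for the form `u`, exponent `e` -/
def BConcl {N : ℕ} [NeZero N] (Zf : ZMod N × ZMod N → ℝ → ℝ → ℂ) (e : ℕ) (u : ℍ → ℂ) : Prop :=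
  DifferentiableOn ℂ (Fct (N := N) Zf u) strip ∧
    ∀ η₁ η₂ : ℝ, 0 < η₁ → ∃ C : ℝ, ∀ ε η : ℝ, 0 < ε → ε ≤ 1 → η₁ ≤ η → η ≤ η₂ →
      ‖Fct (N := N) Zf u (ε + η * I)‖ ≤ C * (ε ^ e)⁻¹

end Pool.Agent.JO
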