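import Pool.Agent.Lib_helper37.JO.A7

/-!
# The final contradiction (project JO)
-/

set_option autoImplicit false

namespace Pool.Agent.JO

open Complex Filter Topology Set
open Pool.Agent.Lib_helper37.JO (HJ HJ1 strip)

theorem isOpen_strip : IsOpen strip := by
  have h1 : IsOpen {θ : ℂ | 0 < θ.re} := isOpen_lt continuous_const Complex.continuous_re
  have h2 : IsOpen {θ : ℂ | θ.re < Real.pi} := isOpen_lt Complex.continuous_re continuous_const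
  exact h1.inter h2

theorem isPreconnected_strip : IsPreconnected strip := by
  have h : Convex ℝ strip := by
    have h1 : Convex ℝ {θ : ℂ | 0 < θ.re} := convex_halfSpace_re_gt 0
    have h2 : Convex ℝ {θ : ℂ | θ.re < Real.pi} := convex_halfSpace_re_lt Real.pi
    exact h1.inter h2
  exact h.isPreconnected

theorem ofReal_mem_strip {θ : ℝ} (h : θ ∈ Ioo (0 : ℝ) Real.pi) : (θ : ℂ) ∈ strip := by
  constructor
  · rw [ofReal_re]
    exact h.1
  · rw [ofReal_re]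
    exact h.2

/-- two holomorphic functions on the strip which agree on the real segment agree -/
theorem eqOn_strip {f g : ℂ → ℂ} (hf : DifferentiableOn ℂ f strip) (hg : DifferentiableOn ℂ g strip)
    (h : ∀ θ : ℝ, θ ∈ Ioo (0 : ℝ) Real.pi → f θ = g θ) : EqOn f g strip := by
  have hf' : AnalyticOnNhd ℂ f strip := hf.analyticOnNhd isOpen_strip
  have hg' : AnalyticOnNhd ℂ g strip := hg.analyticOnNhd isOpen_strip
  have hpi := Real.pi_gt_three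
  have h1 : ((1 : ℝ) : ℂ) ∈ strip := ofReal_mem_strip ⟨one_pos, by linarith⟩
  refine hf'.eqOn_of_preconnected_of_frequently_eq hg' isPreconnected_strip h1 ?_
  have h2 : Tendsto (fun n : ℕ => (((1 : ℝ) + 1 / ((n : ℝ) + 1) : ℝ) : ℂ)) atTop
      (𝓝[≠] ((1 : ℝ) : ℂ)) := by
    refine tendsto_nhdsWithin_iff.2 ⟨?_, ?_⟩
    · have h3 : Tendsto (fun n : ℕ => (1 : ℝ) + 1 / ((n : ℝ) + 1)) atTop (𝓝 ((1 : ℝ) + 0)) :=
        tendsto_const_nhds.add tendsto_one_div_add_atTop_nhds_zero_nat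
      rw [add_zero] at h3
      exact (Complex.continuous_ofReal.tendsto _).comp h3
    · refine Eventually.of_forall fun n => ?_
      intro h4
      have h5 : (1 : ℝ) + 1 / ((n : ℝ) + 1) = 1 := Complex.ofReal_injective h4
      have h6 : 0 < 1 / ((n : ℝ) + 1) := by positivity
      linarith
  refine h2.frequently (Eventually.of_forall fun n => ?_).frequently
  have h6 : 0 < 1 / ((n : ℝ) + 1) := by positivity
  have h7 : 1 / ((n : ℝ) + 1) ≤ 1 := by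
    rw [div_le_one (by positivity)]
    have : (0 : ℝ) ≤ n := Nat.cast_nonneg n
    linarith
  exact h _ ⟨by linarith, by linarith⟩

/-- the contradiction for holomorphic forms -/
theorem contra_hol {F Fc R : ℂ → ℂ} {f : ℝ → ℂ} (hF : DifferentiableOn ℂ F strip)
    (hFc : DifferentiableOn ℂ Fc strip) (hR : DifferentiableOn ℂ R strip)
    (hFf : ∀ θ : ℝ, θ ∈ Ioo (0 : ℝ) Real.pi → F θ = f θ)
    (hdec : ∀ θ : ℝ, θ ∈ Ioo (0 : ℝ) Real.pi → f θ = Fc θ + R θ)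
    {k : ℕ} {η : ℝ} {δ C₁ C₂ ε₀ : ℝ} (hδ : 0 < δ) (hε₀ : 0 < ε₀)
    (hb1 : ∀ ε : ℝ, 0 < ε → ε < ε₀ → ‖Fc (ε + η * I)‖ ≤ C₁ * ε ^ (-(k : ℝ) + δ))
    (hb2 : ∀ ε : ℝ, 0 < ε → ε < ε₀ → ‖R (ε + η * I)‖ ≤ C₂)
    (hlow : ∀ M : ℝ, ∃ᶠ ε : ℝ in 𝓝[>] 0, M < ‖F (ε + η * I)‖ * ε ^ k) : False := by
  have heq : EqOn F (fun θ => Fc θ + R θ) strip :=
    eqOn_strip hF (hFc.add hR) fun θ hθ => (hFf θ hθ).trans (hdec θ hθ)
  have hpi := Real.pi_gt_three
  have hev : ∀ᶠ ε : ℝ in 𝓝[>] 0, ‖F (ε + η * I)‖ * ε ^ k ≤ |C₁| + |C₂| := by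
    have h1 : Ioo (0 : ℝ) (min ε₀ 1) ∈ 𝓝[>] (0 : ℝ) :=
      Ioo_mem_nhdsGT (lt_min hε₀ one_pos)
    filter_upwards [h1] with ε hε
    have hε1 : ε < ε₀ := lt_of_lt_of_le hε.2 (min_le_left _ _)
    have hε2 : ε < 1 := lt_of_lt_of_le hε.2 (min_le_right _ _)
    have hmem : ((ε : ℂ) + η * I) ∈ strip := by
      constructor
      · simpa using hε.1
      · simp only [add_re, ofReal_re, mul_re, I_re, mul_zero, ofReal_im, I_im, mul_one, sub_self,
          add_zero]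
        linarith
    rw [heq hmem]
    have h2 := hb1 ε hε.1 hε1
    have h3 := hb2 ε hε.1 hε1
    have h4 : ‖Fc (ε + η * I) + R (ε + η * I)‖ ≤ C₁ * ε ^ (-(k : ℝ) + δ) + C₂ :=
      (norm_add_le _ _).trans (add_le_add h2 h3)
    have hεk : 0 < ε ^ k := pow_pos hε.1 k
    have h5 : ε ^ (-(k : ℝ) + δ) * ε ^ k = ε ^ δ := by
      rw [← Real.rpow_natCast, ← Real.rpow_add hε.1]
      congr 1
      ring
    have h6 : ε ^ δ ≤ 1 := Real.rpow_le_one hε.1.le hε2.le hδ.le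
    have h7 : 0 < ε ^ δ := Real.rpow_pos_of_pos hε.1 _
    have h8 : ε ^ k ≤ 1 := pow_le_one₀ hε.1.le hε2.le
    calc ‖Fc (ε + η * I) + R (ε + η * I)‖ * ε ^ k
        ≤ (C₁ * ε ^ (-(k : ℝ) + δ) + C₂) * ε ^ k := mul_le_mul_of_nonneg_right h4 hεk.le
      _ = C₁ * ε ^ δ + C₂ * ε ^ k := by rw [add_mul, mul_assoc, h5]
      _ ≤ |C₁| * 1 + |C₂| * 1 := by
        refine add_le_add ?_ ?_
        · exact (mul_le_mul_of_nonneg_right (le_abs_self C₁) h7.le).trans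
            (mul_le_mul_of_nonneg_left h6 (abs_nonneg _))
        · exact (mul_le_mul_of_nonneg_right (le_abs_self C₂) hεk.le).trans
            (mul_le_mul_of_nonneg_left h8 (abs_nonneg _))
      _ = |C₁| + |C₂| := by ring
  obtain ⟨ε, h10, h11⟩ := ((hlow (|C₁| + |C₂|)).and_eventually hev).exists
  linarith

/-- the contradiction for Maass forms: `F` is not bounded near `iη` -/
theorem contra_maass {F Fc R : ℂ → ℂ} {f : ℝ → ℂ} (hF : DifferentiableOn ℂ F strip)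
    (hFc : DifferentiableOn ℂ Fc strip) (hR : DifferentiableOn ℂ R strip)
    (hFf : ∀ θ : ℝ, θ ∈ Ioo (0 : ℝ) Real.pi → F θ = f θ)
    (hdec : ∀ θ : ℝ, θ ∈ Ioo (0 : ℝ) Real.pi → f θ = Fc θ + R θ)
    {η r C₁ C₂ : ℝ}
    (hb1 : ∀ θ : ℂ, θ ∈ strip → ‖θ - η * I‖ < r → ‖Fc θ‖ ≤ C₁)
    (hb2 : ∀ θ : ℂ, θ ∈ strip → ‖θ - η * I‖ < r → ‖R θ‖ ≤ C₂)
    (hlow : ¬ ∃ C : ℝ, ∀ θ : ℂ, θ ∈ strip → ‖θ - η * I‖ < r → ‖F θ‖ ≤ C) : False := by
  have heq : EqOn F (fun θ => Fc θ + R θ) strip :=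
    eqOn_strip hF (hFc.add hR) fun θ hθ => (hFf θ hθ).trans (hdec θ hθ)
  refine hlow ⟨C₁ + C₂, fun θ hθ h => ?_⟩
  rw [heq hθ]
  exact (norm_add_le _ _).trans (add_le_add (hb1 θ hθ h) (hb2 θ hθ h))

end Pool.Agent.JO
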