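import Pool.Agent.Lib_helper63.JO.Defs

/-!
# Project JO, part E6: the dual family and the zeta factors, definitions
-/

set_option autoImplicit false

namespace Pool.Agent.JO

open Complex MeasureTheory Filter Topology
open UpperHalfPlane hiding I
open scoped MatrixGroups ComplexConjugate ContDiff

/-! ## Test functions of the argument -/

/-- `β ↦ (sin² β)''` -/
noncomputable def TD (b : ℝ → ℂ) (t : ℝ) : ℂ :=
  deriv (deriv (fun x => ((Real.sin x ^ 2 : ℝ) : ℂ) * b x)) t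

/-- smooth functions with compact support in `(0, π)` -/
structure TB (b : ℝ → ℂ) : Prop where
  smooth : ContDiff ℝ ∞ b
  supp : ∃ a a' : ℝ, 0 < a ∧ a' < Real.pi ∧ ∀ t, b t ≠ 0 → t ∈ Set.Icc a a'

/-- `Im z` in polar coordinates around the geodesic `(0, ∓1)`, `σ = ±1` -/
noncomputable def hσ (σ τ θ : ℝ) : ℝ := Real.sin θ / (2 * (Real.cosh τ + σ * Real.cos θ))

/-- the integral of `(Im z)^s` over an equidistant line of the geodesic `(0, ∓1)` -/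
noncomputable def FS (σ : ℝ) (s : ℂ) (θ : ℝ) : ℂ := ∫ τ : ℝ, ((hσ σ τ θ : ℝ) : ℂ) ^ s

/-- the function `sin² α` of the argument -/
noncomputable def sa (α : ℝ → ℂ) (θ : ℝ) : ℂ := ((Real.sin θ ^ 2 : ℝ) : ℂ) * α θ

/-- the angle at `t + i y` seen from the geodesic `(0, ∓1)`: the argument of `-σ - 1/(t + iy)` -/
noncomputable def thA (σ t y : ℝ) : ℝ := Complex.arg (-(σ : ℂ) - 1 / ((t : ℂ) + y * I))

/-- the horocyclic integral -/
noncomputable def jj (σ : ℝ) (α : ℝ → ℂ) (y : ℝ) : ℂ := ∫ t : ℝ, sa α (thA σ t y)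

/-! ## Zeta factors -/

/-- `H(r; s) = ∑_{n ≡ r} n^(-s)` -/
noncomputable def Hz {N : ℕ} [NeZero N] (r : ZMod N) (s : ℂ) : ℂ :=
  ZMod.LFunction (fun x => if x = r then 1 else 0) s

open scoped Classical in
/-- `1/L(u, χ)`, continuous on `Re u ≥ 1` -/
noncomputable def iL {N : ℕ} [NeZero N] (χ : DirichletCharacter ℂ N) (u : ℂ) : ℂ :=
  if χ = 1 then (u - 1) / DirichletCharacter.LFunctionTrivChar₁ N u else
    (DirichletCharacter.LFunction χ u)⁻¹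

/-- `M_δ(u) = ∑_{d ≡ δ} μ(d) d^(-u)` -/
noncomputable def Mz {N : ℕ} [NeZero N] (δ : (ZMod N)ˣ) (u : ℂ) : ℂ :=
  (N.totient : ℂ)⁻¹ * ∑ χ : DirichletCharacter ℂ N, χ ((δ⁻¹ : (ZMod N)ˣ) : ZMod N) * iL χ u

/-- `∑ |a c|^(-s)` over the coprime `(a, c) ≡ (v₂, -v₁)` with `sgn (a c) = -σ` -/
noncomputable def ZN {N : ℕ} [NeZero N] (v : ZMod N × ZMod N) (σ : ℝ) (s : ℂ) : ℂ :=
  ∑ δ : (ZMod N)ˣ, Mz δ (2 * s) *
    (Hz (((δ⁻¹ : (ZMod N)ˣ) : ZMod N) * v.2) s *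
        Hz (if σ = 1 then ((δ⁻¹ : (ZMod N)ˣ) : ZMod N) * v.1 else
          -(((δ⁻¹ : (ZMod N)ˣ) : ZMod N) * v.1)) s +
      Hz (-(((δ⁻¹ : (ZMod N)ˣ) : ZMod N) * v.2)) s *
        Hz (if σ = 1 then -(((δ⁻¹ : (ZMod N)ˣ) : ZMod N) * v.1) else
          ((δ⁻¹ : (ZMod N)ˣ) : ZMod N) * v.1) s)

/-- the zeta factors -/
noncomputable def Zf (N : ℕ) [NeZero N] (v : ZMod N × ZMod N) (σ κ : ℝ) : ℂ :=
  (1 / (8 * Real.pi) : ℝ) * (2 : ℂ) ^ (-((1 / 2 : ℂ) + κ * I)) *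
    conj (ZN v σ ((1 / 2 : ℂ) - κ * I))

end Pool.Agent.JO
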