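import Pool.Agent.Lib_helper84.JO6.Top

/-! # JO, part E6: all statements are proved in the imported files -/
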