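import Pool.Agent.Lib_helper84.JO.SETop
import Pool.Agent.Lib_helper87.JO.B6
import Pool.Agent.Lib_helper37.JO.A11

/-!
# Project JO: glue of part B

From the weighted mean squares of the Mellin transforms (conclusion of B1), the bounds of the zeta
factors and the mean square of the Hecke eigenvalues to the bound of the continuous part.
-/

set_option autoImplicit false

namespace Pool.Agent.JO

open Complex MeasureTheory Filter Topology
open UpperHalfPlane hiding I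
open Pool.Agent.Lib_helper37.JO (HJ HJ1 strip)
open scoped MatrixGroups ComplexConjugate ENNReal

/-- the amplified bounds for a system of functions, exponent `e` -/
structure AmpB {N : ℕ} [NeZero N] (e : ℕ) (lam : ℕ → ℂ) (a : ZMod N × ZMod N → ℝ → ℂ) : Prop where
  meas : ∀ v ∈ PV N, Measurable (a v)
  sq : ∀ v ∈ PV N, Integrable fun κ : ℝ => ‖a v κ‖ ^ 2
  amp : ∃ C d : ℝ, 0 < d ∧
    (∀ K P : ℝ, 1 ≤ K → 1 ≤ P → P ≤ K ^ d → ∀ PP : Finset ℕ, PPok N lam P PP →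
      ∑ v ∈ PV N, ∫⁻ κ in {κ : ℝ | K ≤ |κ| ∧ |κ| ≤ 2 * K},
          ENNReal.ofReal (‖App PP a v κ‖ ^ 2 * Real.exp (Real.pi * |κ|)) ≤
        ENNReal.ofReal (C * P ^ (3 / 2 : ℝ) * K ^ (2 * (e : ℝ)))) ∧
    ∀ K : ℝ, 1 ≤ K →
      ∑ v ∈ PV N, ∫⁻ κ in {κ : ℝ | K ≤ |κ| ∧ |κ| ≤ 2 * K},
          ENNReal.ofReal (‖a v κ‖ ^ 2 * Real.exp (Real.pi * |κ|)) ≤
        ENNReal.ofReal (C * K ^ (2 * (e : ℝ)))

/-- exponential decay -/
theorem AmpB.dec {N : ℕ} [NeZero N] {e : ℕ} {lam : ℕ → ℂ} {a : ZMod N × ZMod N → ℝ → ℂ}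
    (h : AmpB (N := N) e lam a) {v : ZMod N × ZMod N} (hv : v ∈ PV N) {c : ℝ} (hc : 0 < c) :
    Integrable fun κ : ℝ => ‖a v κ‖ ^ 2 * Real.exp ((Real.pi - c) * |κ|) := by
  obtain ⟨C, d, -, -, hC⟩ := h.amp
  have hm : Measurable fun κ : ℝ => ‖a v κ‖ ^ 2 * Real.exp ((Real.pi - c) * |κ|) := by
    have := h.meas v hv
    fun_prop
  refine ⟨hm.aestronglyMeasurable, ?_⟩
  rw [hasFiniteIntegral_iff_norm]
  have hnn : ∀ κ : ℝ, 0 ≤ ‖a v κ‖ ^ 2 * Real.exp ((Real.pi - c) * |κ|) := fun κ => by positivity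
  simp_rw [Real.norm_of_nonneg (hnn _)]
  -- the cover
  set g : ℝ → ℝ≥0∞ := fun κ => ENNReal.ofReal (‖a v κ‖ ^ 2 * Real.exp ((Real.pi - c) * |κ|)) with hg
  have hgm : Measurable g := hm.ennreal_ofReal
  have hcov : (Set.univ : Set ℝ) ⊆ {κ : ℝ | |κ| ≤ 1} ∪
      ⋃ j : ℕ, {κ : ℝ | (2 : ℝ) ^ j ≤ |κ| ∧ |κ| ≤ 2 * 2 ^ j} := by
    intro κ _
    rcases le_or_gt |κ| 1 with h1 | h1
    · exact Or.inl h1
    · obtain ⟨n, hn1, hn2⟩ := exists_nat_pow_near h1.le (one_lt_two)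
      right
      rw [Set.mem_iUnion]
      exact ⟨n, hn1, by rw [pow_succ] at hn2; linarith⟩
  have h1 : ∫⁻ κ, g κ ≤ (∫⁻ κ in {κ : ℝ | |κ| ≤ 1}, g κ) +
      ∑' j : ℕ, ∫⁻ κ in {κ : ℝ | (2 : ℝ) ^ j ≤ |κ| ∧ |κ| ≤ 2 * 2 ^ j}, g κ := by
    calc ∫⁻ κ, g κ = ∫⁻ κ in (Set.univ : Set ℝ), g κ := by rw [Measure.restrict_univ]
      _ ≤ ∫⁻ κ in {κ : ℝ | |κ| ≤ 1} ∪
          ⋃ j : ℕ, {κ : ℝ | (2 : ℝ) ^ j ≤ |κ| ∧ |κ| ≤ 2 * 2 ^ j}, g κ :=
        lintegral_mono_set hcov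
      _ ≤ (∫⁻ κ in {κ : ℝ | |κ| ≤ 1}, g κ) +
          ∫⁻ κ in ⋃ j : ℕ, {κ : ℝ | (2 : ℝ) ^ j ≤ |κ| ∧ |κ| ≤ 2 * 2 ^ j}, g κ :=
        lintegral_union_le _ _ _
      _ ≤ _ := by
        gcongr
        exact lintegral_iUnion_le _ _
  refine lt_of_le_of_lt h1 (ENNReal.add_lt_top.2 ⟨?_, ?_⟩)
  · -- near zero
    have h2 : ∀ κ ∈ {κ : ℝ | |κ| ≤ 1}, g κ ≤ ENNReal.ofReal (Real.exp Real.pi) *
        ENNReal.ofReal (‖a v κ‖ ^ 2) := by
      intro κ hκ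
      rw [hg, ← ENNReal.ofReal_mul (by positivity)]
      refine ENNReal.ofReal_le_ofReal ?_
      rw [mul_comm]
      refine mul_le_mul_of_nonneg_right (Real.exp_le_exp.2 ?_) (by positivity)
      have h3 : |κ| ≤ 1 := hκ
      have := Real.pi_pos
      have h4 : 0 ≤ |κ| := abs_nonneg κ
      nlinarith
    refine lt_of_le_of_lt (setLIntegral_mono' (measurableSet_le (by fun_prop) (by fun_prop)) h2) ?_
    rw [lintegral_const_mul _ (by have := h.meas v hv; fun_prop)]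
    refine ENNReal.mul_lt_top ENNReal.ofReal_lt_top ?_
    refine lt_of_le_of_lt (setLIntegral_le_lintegral _ _) ?_
    have h4 := (h.sq v hv).2
    rw [hasFiniteIntegral_iff_norm] at h4
    simpa using h4
  · have h2 : ∀ j : ℕ, ∫⁻ κ in {κ : ℝ | (2 : ℝ) ^ j ≤ |κ| ∧ |κ| ≤ 2 * 2 ^ j}, g κ ≤
        ENNReal.ofReal (|C| * (((2 : ℝ) ^ j) ^ (2 * (e : ℝ)) * Real.exp (-c * 2 ^ j))) := by
      intro j
      have hj1 : (1 : ℝ) ≤ 2 ^ j := one_le_pow₀ one_le_two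
      have h3 : ∀ κ ∈ {κ : ℝ | (2 : ℝ) ^ j ≤ |κ| ∧ |κ| ≤ 2 * 2 ^ j}, g κ ≤
          ENNReal.ofReal (Real.exp (-c * 2 ^ j)) *
            ENNReal.ofReal (‖a v κ‖ ^ 2 * Real.exp (Real.pi * |κ|)) := by
        intro κ hκ
        rw [hg, ← ENNReal.ofReal_mul (by positivity)]
        refine ENNReal.ofReal_le_ofReal ?_
        have h5 : Real.exp ((Real.pi - c) * |κ|) =
            Real.exp (Real.pi * |κ|) * Real.exp (-c * |κ|) := by
          rw [← Real.exp_add]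
          congr 1
          ring
        have h6 : Real.exp (-c * |κ|) ≤ Real.exp (-c * 2 ^ j) := by
          refine Real.exp_le_exp.2 ?_
          have := hκ.1
          nlinarith
        rw [h5]
        calc ‖a v κ‖ ^ 2 * (Real.exp (Real.pi * |κ|) * Real.exp (-c * |κ|))
            = Real.exp (-c * |κ|) * (‖a v κ‖ ^ 2 * Real.exp (Real.pi * |κ|)) := by ring
          _ ≤ _ := mul_le_mul_of_nonneg_right h6 (by positivity)
      refine (setLIntegral_mono' (by measurability) h3).trans ?_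
      rw [lintegral_const_mul _ (by have := h.meas v hv; fun_prop)]
      have h7 := hC _ hj1
      have h8 : ∫⁻ κ in {κ : ℝ | (2 : ℝ) ^ j ≤ |κ| ∧ |κ| ≤ 2 * 2 ^ j},
          ENNReal.ofReal (‖a v κ‖ ^ 2 * Real.exp (Real.pi * |κ|)) ≤
          ENNReal.ofReal (|C| * ((2 : ℝ) ^ j) ^ (2 * (e : ℝ))) := by
        refine (Finset.single_le_sum (f := fun v => ∫⁻ κ in {κ : ℝ | (2 : ℝ) ^ j ≤ |κ| ∧
          |κ| ≤ 2 * 2 ^ j}, ENNReal.ofReal (‖a v κ‖ ^ 2 * Real.exp (Real.pi * |κ|)))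
          (fun _ _ => zero_le) hv).trans (h7.trans (ENNReal.ofReal_le_ofReal ?_))
        exact mul_le_mul_of_nonneg_right (le_abs_self _) (by positivity)
      calc ENNReal.ofReal (Real.exp (-c * 2 ^ j)) *
          ∫⁻ κ in {κ : ℝ | (2 : ℝ) ^ j ≤ |κ| ∧ |κ| ≤ 2 * 2 ^ j},
            ENNReal.ofReal (‖a v κ‖ ^ 2 * Real.exp (Real.pi * |κ|))
          ≤ ENNReal.ofReal (Real.exp (-c * 2 ^ j)) *
            ENNReal.ofReal (|C| * ((2 : ℝ) ^ j) ^ (2 * (e : ℝ))) := by gcongr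
        _ = _ := by
          rw [← ENNReal.ofReal_mul (by positivity)]
          congr 1
          ring
    have hsum : Summable fun j : ℕ => |C| * (((2 : ℝ) ^ j) ^ (2 * (e : ℝ)) * Real.exp (-c * 2 ^ j)) := by
      refine Summable.mul_left _ ?_
      -- `x^{2e} e^{-cx} ≤ M / x`
      obtain ⟨M, hM1, hM⟩ := Pool.Agent.JOL.rpow_exp_bdd (q := 2 * (e : ℝ) + 1) (by positivity) hc
      refine Summable.of_nonneg_of_le (fun j => by positivity) (fun j => ?_)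
        ((summable_geometric_of_lt_one (r := 1 / 2) (by norm_num) (by norm_num)).mul_left M)
      have hp : (0 : ℝ) < 2 ^ j := by positivity
      have h9 := hM _ hp
      rw [Real.rpow_add hp, Real.rpow_one] at h9
      have h10 : (1 / 2 : ℝ) ^ j = ((2 : ℝ) ^ j)⁻¹ := by
        rw [one_div, inv_pow]
      rw [h10]
      rw [← div_eq_mul_inv, le_div_iff₀ hp]
      calc ((2 : ℝ) ^ j) ^ (2 * (e : ℝ)) * Real.exp (-c * 2 ^ j) * 2 ^ j
          = ((2 : ℝ) ^ j) ^ (2 * (e : ℝ)) * 2 ^ j * Real.exp (-(c * 2 ^ j)) := by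
            rw [neg_mul]; ring
        _ ≤ M := h9
    calc ∑' j : ℕ, ∫⁻ κ in {κ : ℝ | (2 : ℝ) ^ j ≤ |κ| ∧ |κ| ≤ 2 * 2 ^ j}, g κ
        ≤ ∑' j : ℕ, ENNReal.ofReal
          (|C| * (((2 : ℝ) ^ j) ^ (2 * (e : ℝ)) * Real.exp (-c * 2 ^ j))) :=
          ENNReal.tsum_le_tsum h2
      _ = ENNReal.ofReal (∑' j : ℕ, |C| * (((2 : ℝ) ^ j) ^ (2 * (e : ℝ)) * Real.exp (-c * 2 ^ j))) :=
          (ENNReal.ofReal_tsum_of_nonneg (fun j => by positivity) hsum).symm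
      _ < ⊤ := ENNReal.ofReal_lt_top

theorem pv_unit {N : ℕ} [NeZero N] (t : (ZMod N)ˣ) {v : ZMod N × ZMod N} (hv : v ∈ PV N) :
    ((t : ZMod N) * v.1, (t : ZMod N) * v.2) ∈ PV N := by
  unfold PV at hv ⊢
  rw [Finset.mem_image] at hv ⊢
  obtain ⟨s, -, hs⟩ := hv
  have hdet : s 0 0 * s 1 1 - s 0 1 * s 1 0 = 1 := by
    have := s.det_coe
    rwa [Matrix.det_fin_two] at this
  refine ⟨⟨!![((t⁻¹ : (ZMod N)ˣ) : ZMod N) * s 0 0, ((t⁻¹ : (ZMod N)ˣ) : ZMod N) * s 0 1;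
    (t : ZMod N) * s 1 0, (t : ZMod N) * s 1 1], ?_⟩, Finset.mem_univ _, ?_⟩
  · rw [Matrix.det_fin_two_of]
    have ht : ((t⁻¹ : (ZMod N)ˣ) : ZMod N) * (t : ZMod N) = 1 := t.inv_mul
    calc ((t⁻¹ : (ZMod N)ˣ) : ZMod N) * s 0 0 * ((t : ZMod N) * s 1 1) -
          ((t⁻¹ : (ZMod N)ˣ) : ZMod N) * s 0 1 * ((t : ZMod N) * s 1 0)
        = (((t⁻¹ : (ZMod N)ˣ) : ZMod N) * (t : ZMod N)) * (s 0 0 * s 1 1 - s 0 1 * s 1 0) := by ring
      _ = 1 := by rw [ht, hdet, one_mul]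
  · rw [← hs]
    rfl

theorem app_eq {N : ℕ} (PP : Finset ℕ) (a : ZMod N × ZMod N → ℝ → ℂ) (v : ZMod N × ZMod N)
    (κ : ℝ) : Pool.Agent.JOL.AP PP a v κ = App PP a v κ := by
  unfold Pool.Agent.JOL.AP App
  refine Finset.sum_congr rfl fun p _ => ?_
  rw [show (2 * Complex.I * (κ : ℂ)) = 2 * (κ : ℂ) * I by ring]

theorem exp_abs_int {b : ℝ} (hb : 0 < b) : Integrable (fun u : ℝ => Real.exp (-b * |u|)) := by
  have h1 : IntegrableOn (fun u : ℝ => Real.exp (-b * |u|)) (Set.Ioi 0) := by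
    refine (exp_neg_integrableOn_Ioi 0 hb).congr_fun (fun u hu => ?_) measurableSet_Ioi
    simp only
    rw [abs_of_pos (show (0 : ℝ) < u from hu)]
  have h2 : IntegrableOn (fun u : ℝ => Real.exp (-b * |u|)) (Set.Iic 0) := by
    rw [← Measure.map_neg_eq_self (volume : Measure ℝ)]
    let m : MeasurableEmbedding fun x : ℝ => -x := (Homeomorph.neg ℝ).measurableEmbedding
    rw [m.integrableOn_map_iff]
    simp_rw [Function.comp_def, abs_neg, Set.neg_preimage, Set.neg_Iic, neg_zero]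
    exact Iff.mpr integrableOn_Ici_iff_integrableOn_Ioi h1
  have h3 := h2.union h1
  rwa [Set.Iic_union_Ioi, integrableOn_univ] at h3

/-- the product with the zeta factor is integrable with exponential weight -/
theorem AmpB.mul_int {N : ℕ} [NeZero N] {e : ℕ} {lam : ℕ → ℂ} {a : ZMod N × ZMod N → ℝ → ℂ}
    (h : AmpB (N := N) e lam a) {Zf : ZMod N × ZMod N → ℝ → ℝ → ℂ} (hZ : ZfB Zf)
    {v : ZMod N × ZMod N} (hv : v ∈ PV N) (σ : ℝ) {c : ℝ} (hc : 0 < c) :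
    Integrable fun κ : ℝ => ‖a v κ * Zf v σ κ‖ * Real.exp ((Real.pi / 2 - c) * |κ|) := by
  have h1 := h.dec hv hc
  obtain ⟨C, d, hd, hC⟩ := hZ.sup
  have hmZ := hZ.meas v σ
  have hma := h.meas v hv
  have h2 : Integrable fun κ : ℝ => ‖Zf v σ κ‖ ^ 2 * Real.exp (-c * |κ|) := by
    have h3 : Integrable fun κ : ℝ => Real.exp (-(c / 2) * |κ|) := by
      exact exp_abs_int (half_pos hc)
    obtain ⟨M, hM1, hM⟩ := Pool.Agent.JOL.rpow_exp_bdd (q := 2) (by norm_num) (half_pos hc)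
    have hb : ∀ κ : ℝ, (1 + |κ|) * Real.exp (-(c / 2) * |κ|) ≤ 1 + 1 + M := by
      intro κ
      rcases le_or_gt |κ| 1 with h4 | h4
      · have h5 : Real.exp (-(c / 2) * |κ|) ≤ 1 := Real.exp_le_one_iff.2 (by
          have := abs_nonneg κ
          nlinarith)
        have h6 : 0 < Real.exp (-(c / 2) * |κ|) := Real.exp_pos _
        nlinarith [abs_nonneg κ]
      · have h5 := hM |κ| (by linarith)
        have h6 : Real.exp (-(c / 2) * |κ|) ≤ 1 := Real.exp_le_one_iff.2 (by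
          have := abs_nonneg κ
          nlinarith)
        have h7 : |κ| ≤ |κ| ^ (2 : ℝ) := by
          conv_lhs => rw [← Real.rpow_one |κ|]
          exact Real.rpow_le_rpow_of_exponent_le h4.le (by norm_num)
        have h8 : 0 < Real.exp (-(c / 2 * |κ|)) := Real.exp_pos _
        rw [neg_mul] at h6 ⊢
        have h9 : |κ| * Real.exp (-(c / 2 * |κ|)) ≤ M :=
          (mul_le_mul_of_nonneg_right h7 h8.le).trans h5
        linarith
    refine (h3.const_mul (C ^ 2 * (1 + 1 + M))).mono' (by fun_prop)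
      (Filter.Eventually.of_forall fun κ => ?_)
    have hp : (0 : ℝ) < 1 + |κ| := by positivity
    rw [Real.norm_of_nonneg (by positivity)]
    have h4 : ‖Zf v σ κ‖ ^ 2 ≤ C ^ 2 * (1 + |κ|) := by
      have h5 := hC v σ κ
      calc ‖Zf v σ κ‖ ^ 2 ≤ (C * (1 + |κ|) ^ (1 / 2 - d)) ^ 2 :=
            pow_le_pow_left₀ (norm_nonneg _) h5 2
        _ = C ^ 2 * (1 + |κ|) ^ (1 - 2 * d) := by
          rw [mul_pow, ← Real.rpow_natCast ((1 + |κ|) ^ (1 / 2 - d)), ← Real.rpow_mul hp.le]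
          congr 2
          push_cast
          ring
        _ ≤ C ^ 2 * (1 + |κ|) := by
          refine mul_le_mul_of_nonneg_left ?_ (sq_nonneg _)
          conv_rhs => rw [← Real.rpow_one (1 + |κ|)]
          exact Real.rpow_le_rpow_of_exponent_le (by linarith [abs_nonneg κ]) (by linarith)
    have h6 : Real.exp (-c * |κ|) = Real.exp (-(c / 2) * |κ|) * Real.exp (-(c / 2) * |κ|) := by
      rw [← Real.exp_add]
      congr 1
      ring
    calc ‖Zf v σ κ‖ ^ 2 * Real.exp (-c * |κ|)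
        ≤ C ^ 2 * (1 + |κ|) * (Real.exp (-(c / 2) * |κ|) * Real.exp (-(c / 2) * |κ|)) := by
          rw [h6]
          exact mul_le_mul_of_nonneg_right h4 (by positivity)
      _ = C ^ 2 * ((1 + |κ|) * Real.exp (-(c / 2) * |κ|)) * Real.exp (-(c / 2) * |κ|) := by ring
      _ ≤ C ^ 2 * (1 + 1 + M) * Real.exp (-(c / 2) * |κ|) := by
          refine mul_le_mul_of_nonneg_right ?_ (Real.exp_nonneg _)
          exact mul_le_mul_of_nonneg_left (hb κ) (sq_nonneg _)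
  refine (h1.add h2).mono' (by fun_prop) (Filter.Eventually.of_forall fun κ => ?_)
  rw [Real.norm_of_nonneg (by positivity), norm_mul]
  have h6 : Real.exp ((Real.pi / 2 - c) * |κ|) =
      Real.exp ((Real.pi - c) * |κ| / 2) * Real.exp (-c * |κ| / 2) := by
    rw [← Real.exp_add]
    congr 1
    ring
  have h7 : Real.exp ((Real.pi - c) * |κ|) = Real.exp ((Real.pi - c) * |κ| / 2) ^ 2 := by
    rw [← Real.exp_nat_mul]
    congr 1
    push_cast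
    ring
  have h8 : Real.exp (-c * |κ|) = Real.exp (-c * |κ| / 2) ^ 2 := by
    rw [← Real.exp_nat_mul]
    congr 1
    push_cast
    ring
  simp only [Pi.add_apply]
  rw [h6, h7, h8]
  nlinarith [sq_nonneg (‖a v κ‖ * Real.exp ((Real.pi - c) * |κ| / 2) -
    ‖Zf v σ κ‖ * Real.exp (-c * |κ| / 2)),
    mul_nonneg (mul_nonneg (norm_nonneg (a v κ)) (Real.exp_nonneg ((Real.pi - c) * |κ| / 2)))
      (mul_nonneg (norm_nonneg (Zf v σ κ)) (Real.exp_nonneg (-c * |κ| / 2)))]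

/-- the continuous part of a system of functions -/
noncomputable def Fc0 {N : ℕ} [NeZero N] (Zf : ZMod N × ZMod N → ℝ → ℝ → ℂ)
    (a : ZMod N × ZMod N → ℝ → ℂ) (θ : ℂ) : ℂ :=
  ∑ v ∈ PV N, ((∫ κ : ℝ, a v κ * Zf v 1 κ * HJ 1 κ θ) +
    ∫ κ : ℝ, a v κ * Zf v (-1) κ * HJ (-1) κ θ)

theorem AmpB.differentiableOn {N : ℕ} [NeZero N] {e : ℕ} {lam : ℕ → ℂ}
    {a : ZMod N × ZMod N → ℝ → ℂ} (h : AmpB (N := N) e lam a)
    {Zf : ZMod N × ZMod N → ℝ → ℝ → ℂ} (hZ : ZfB Zf) :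
    DifferentiableOn ℂ (Fc0 (N := N) Zf a) strip := by
  unfold Fc0
  refine DifferentiableOn.fun_sum fun v hv => ?_
  have h1 : ∀ σ : ℝ, σ ^ 2 = 1 →
      DifferentiableOn ℂ (fun θ : ℂ => ∫ κ : ℝ, a v κ * Zf v σ κ * HJ σ κ θ) strip := by
    intro σ hσ
    refine Pool.Agent.Lib_helper37.JO.Fc_differentiableOn hσ (fun κ => a v κ * Zf v σ κ) ?_ ?_
    · have h2 := h.meas v hv
      have h3 := hZ.meas v σ
      exact (h2.mul h3).aestronglyMeasurable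
    · intro c hc
      exact h.mul_int hZ hv σ hc
  exact (h1 1 (by norm_num)).add (h1 (-1) (by norm_num))

/-- **the final estimate** -/
theorem AmpB.bound {N : ℕ} [NeZero N] {e : ℕ} {lam : ℕ → ℂ}
    {a : ZMod N × ZMod N → ℝ → ℂ} (h : AmpB (N := N) e lam a)
    {Zf : ZMod N × ZMod N → ℝ → ℝ → ℂ} (hZ : ZfB Zf)
    (hlam : ∃ C : ℝ, ∀ x : ℕ, ∑ n ∈ Finset.Icc 1 x, ‖lam n‖ ^ 2 ≤ C * x) (η₁ η₂ : ℝ)
    (hη : 0 < η₁) : ∃ C : ℝ, ∀ ε η : ℝ, 0 < ε → ε ≤ 1 → η₁ ≤ η → η ≤ η₂ →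
      ‖Fc0 (N := N) Zf a (ε + η * I)‖ ≤ C * (ε ^ e)⁻¹ := by
  obtain ⟨CH, cH, hCH, hcH, hHJ⟩ := Pool.Agent.Lib_helper37.JO.HJ_bound_eta η₁ η₂ hη
  have key : ∀ σ : ℝ, σ ^ 2 = 1 → ∃ C : ℝ, 0 ≤ C ∧ ∀ ε η : ℝ, 0 < ε → ε ≤ 1 → η₁ ≤ η → η ≤ η₂ →
      ∑ v ∈ PV N, ∫⁻ κ, ‖a v κ * Zf v σ κ * HJ σ κ (ε + η * I)‖ₑ ≤
        ENNReal.ofReal (C * (ε ^ e)⁻¹) := by
    intro σ hσ
    obtain ⟨δ, hδ0, hδ1, hmain⟩ := Pool.Agent.JOL.finalEstimate (PV N)
      (fun t v hv => pv_unit t hv) e lam hlam a (fun v hv => (h.meas v hv).aemeasurable)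
      (by
        obtain ⟨C, d, hd, hC, -⟩ := h.amp
        refine ⟨d, hd, C, fun K hK P hP hPK PP hPP => ?_⟩
        have h1 := hC K P hK (by exact_mod_cast hP) hPK PP (fun p hp => by
          obtain ⟨h2, h3, h4, h5, h6⟩ := hPP p hp
          exact ⟨h2, by exact_mod_cast h4, by exact_mod_cast h5, h3, h6⟩)
        rw [show K ^ (2 * (e : ℝ)) = K ^ (2 * e) by
          rw [← Real.rpow_natCast K (2 * e)]; push_cast; rfl] at h1
        simp_rw [app_eq]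
        exact h1)
      (by
        obtain ⟨C, d, hd, -, hC⟩ := h.amp
        refine ⟨C, fun K hK => ?_⟩
        have h1 := hC K hK
        rw [show K ^ (2 * (e : ℝ)) = K ^ (2 * e) by
          rw [← Real.rpow_natCast K (2 * e)]; push_cast; rfl] at h1
        exact h1)
      (by
        intro v hv
        have h4 := (h.sq v hv).2
        rw [hasFiniteIntegral_iff_norm] at h4
        refine (lt_of_le_of_lt (setLIntegral_le_lintegral _ _) ?_).ne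
        simpa using h4)
      (fun v κ => Zf v σ κ)
      (by
        intro e' he'
        obtain ⟨C, hC⟩ := hZ.ms e' he'
        refine ⟨C, fun K hK v hv => ?_⟩
        have h1 := hC v σ K hK
        obtain ⟨C₂, d, hd, hC₂⟩ := hZ.sup
        have hmZ := hZ.meas v σ
        have hset : {κ : ℝ | |κ| ≤ K} = Set.Icc (-K) K := by
          ext κ
          simp [abs_le]
        have hi : IntegrableOn (fun κ => ‖Zf v σ κ‖ ^ 2) (Set.Icc (-K) K) := by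
          have hcont : ContinuousOn (fun κ : ℝ => (C₂ * (1 + |κ|) ^ (1 / 2 - d)) ^ 2)
              (Set.Icc (-K) K) := by
            refine ContinuousOn.pow (continuousOn_const.mul ?_) 2
            refine ContinuousOn.rpow_const (by fun_prop) fun κ _ => Or.inl ?_
            positivity
          refine (hcont.integrableOn_compact isCompact_Icc).mono' (by fun_prop)
            (Filter.Eventually.of_forall fun κ => ?_)
          rw [Real.norm_of_nonneg (by positivity)]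
          exact pow_le_pow_left₀ (norm_nonneg _) (hC₂ v σ κ) 2
        rw [hset, ← ofReal_integral_eq_lintegral_ofReal hi
          (Filter.Eventually.of_forall fun κ => by positivity)]
        refine ENNReal.ofReal_le_ofReal ?_
        rw [integral_Icc_eq_integral_Ioc,
          ← intervalIntegral.integral_of_le (by linarith : -K ≤ K)]
        exact h1)
      (by
        obtain ⟨C₂, d, hd, hC₂⟩ := hZ.sup
        exact ⟨d, hd, C₂, fun v _ κ => hC₂ v σ κ⟩)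
    obtain ⟨C, hC0, hC⟩ := hmain cH hcH
    refine ⟨C * CH, by positivity, fun ε η hε hε1 hη1 hη2 => ?_⟩
    have habs : |η| = η := abs_of_nonneg (by linarith)
    have h2 := hC ε hε hε1 CH hCH.le (fun κ => HJ σ κ (ε + η * I)) (fun κ =>
      (hHJ σ hσ κ ε η hε (by linarith [Real.pi_gt_three]) (by rw [habs]; exact hη1)
        (by rw [habs]; exact hη2)).1)
    refine h2.trans (ENNReal.ofReal_le_ofReal ?_)
    refine mul_le_mul_of_nonneg_left ?_ (by positivity)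
    split_ifs with h3
    · rw [h3]
      simp
    · rw [← Real.rpow_natCast ε e, ← Real.rpow_neg hε.le]
      exact Real.rpow_le_rpow_of_exponent_ge hε hε1 (by linarith)
  obtain ⟨C₁, hC₁0, hC₁⟩ := key 1 (by norm_num)
  obtain ⟨C₂, hC₂0, hC₂⟩ := key (-1) (by norm_num)
  refine ⟨C₁ + C₂, fun ε η hε hε1 hη1 hη2 => ?_⟩
  have hk0 : 0 < (ε ^ e)⁻¹ := by positivity
  have h3 : ∀ (σ C : ℝ), 0 ≤ C →
      ∑ v ∈ PV N, ∫⁻ κ, ‖a v κ * Zf v σ κ * HJ σ κ (ε + η * I)‖ₑ ≤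
        ENNReal.ofReal (C * (ε ^ e)⁻¹) →
      ∑ v ∈ PV N, ‖∫ κ : ℝ, a v κ * Zf v σ κ * HJ σ κ (ε + η * I)‖ ≤ C * (ε ^ e)⁻¹ := by
    intro σ C hC h4
    have h5 : ENNReal.ofReal (∑ v ∈ PV N, ‖∫ κ : ℝ, a v κ * Zf v σ κ * HJ σ κ (ε + η * I)‖) ≤
        ENNReal.ofReal (C * (ε ^ e)⁻¹) := by
      rw [ENNReal.ofReal_sum_of_nonneg (fun _ _ => norm_nonneg _)]
      refine (Finset.sum_le_sum fun v _ => ?_).trans h4
      rw [ofReal_norm]
      exact enorm_integral_le_lintegral_enorm _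
    exact (ENNReal.ofReal_le_ofReal_iff (by positivity)).1 h5
  unfold Fc0
  calc ‖∑ v ∈ PV N, ((∫ κ : ℝ, a v κ * Zf v 1 κ * HJ 1 κ (ε + η * I)) +
        ∫ κ : ℝ, a v κ * Zf v (-1) κ * HJ (-1) κ (ε + η * I))‖
      ≤ ∑ v ∈ PV N, (‖∫ κ : ℝ, a v κ * Zf v 1 κ * HJ 1 κ (ε + η * I)‖ +
          ‖∫ κ : ℝ, a v κ * Zf v (-1) κ * HJ (-1) κ (ε + η * I)‖) :=
        (norm_sum_le _ _).trans (Finset.sum_le_sum fun v _ => norm_add_le _ _)
    _ ≤ C₁ * (ε ^ e)⁻¹ + C₂ * (ε ^ e)⁻¹ := by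
      rw [Finset.sum_add_distrib]
      exact add_le_add (h3 1 C₁ hC₁0 (hC₁ ε η hε hε1 hη1 hη2))
        (h3 (-1) C₂ hC₂0 (hC₂ ε η hε hε1 hη1 hη2))
    _ = _ := by ring

/-- the amplified bounds from the conclusion of part B1 -/
theorem ampB_of_concl {N e : ℕ} [NeZero N] {lam : ℕ → ℂ} {u : ℍ → ℂ}
    (h : ConclB1 N e lam u) : AmpB (N := N) e lam (aM (N := N) u) :=
  ⟨fun v _ => measurable_melL2 _, h.1, h.2⟩

theorem aMDec_of_concl {N e : ℕ} [NeZero N] {lam : ℕ → ℂ} {u : ℍ → ℂ}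
    (h : ConclB1 N e lam u) : aMDec N u :=
  fun _ hv _ hc => (ampB_of_concl h).dec hv hc

theorem bConcl_of_concl {N e : ℕ} [NeZero N] {lam : ℕ → ℂ} {u : ℍ → ℂ}
    (h : ConclB1 N e lam u) {Zf : ZMod N × ZMod N → ℝ → ℝ → ℂ} (hZ : ZfB Zf)
    (hlam : ∃ C : ℝ, ∀ x : ℕ, ∑ n ∈ Finset.Icc 1 x, ‖lam n‖ ^ 2 ≤ C * x) :
    BConcl (N := N) Zf e u :=
  ⟨(ampB_of_concl h).differentiableOn hZ, fun η₁ η₂ hη => (ampB_of_concl h).bound hZ hlam η₁ η₂ hη⟩

end Pool.Agent.JO
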