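import Pool.Agent.Lib_helper84.JO.BGlue

/-!
# Project JO: glue of part B, both ends of the strip
-/

set_option autoImplicit false

namespace Pool.Agent.JO

open Complex MeasureTheory Filter Topology
open UpperHalfPlane hiding I
open Pool.Agent.Lib_helper37.JO (HJ HJ1 strip)
open scoped MatrixGroups ComplexConjugate ENNReal

theorem hj_reflect' (σ κ : ℝ) (θ : ℂ) : HJ σ κ ((Real.pi : ℂ) - θ) = HJ (-σ) κ θ := by
  unfold HJ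
  refine integral_congr_ae (Filter.Eventually.of_forall fun τ => ?_)
  simp only [Complex.sin_pi_sub, Complex.cos_pi_sub, Complex.ofReal_neg]
  congr 2
  ring

theorem ZfB.reflect {N : ℕ} {Zf : ZMod N × ZMod N → ℝ → ℝ → ℂ} (h : ZfB Zf) :
    ZfB (fun v σ κ => Zf v (-σ) κ) := by
  refine ⟨fun v σ => h.meas v (-σ), ?_, fun e he => ?_⟩
  · obtain ⟨C, d, hd, hC⟩ := h.sup
    exact ⟨C, d, hd, fun v σ κ => hC v (-σ) κ⟩
  · obtain ⟨C, hC⟩ := h.ms e he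
    exact ⟨C, fun v σ K hK => hC v (-σ) K hK⟩

theorem fct_reflect {N : ℕ} [NeZero N] (Zf : ZMod N × ZMod N → ℝ → ℝ → ℂ) (u : ℍ → ℂ) (θ : ℂ) :
    Fct (N := N) Zf u ((Real.pi : ℂ) - θ) = Fct (N := N) (fun v σ κ => Zf v (-σ) κ) u θ := by
  unfold Fct
  refine Finset.sum_congr rfl fun v _ => ?_
  simp only [hj_reflect', neg_neg]
  exact add_comm _ _

/-- the estimate of the continuous part near `π - iη` -/
theorem bConcl_reflect {N e : ℕ} [NeZero N] {lam : ℕ → ℂ} {u : ℍ → ℂ}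
    (h : ConclB1 N e lam u) {Zf : ZMod N × ZMod N → ℝ → ℝ → ℂ} (hZ : ZfB Zf)
    (hlam : ∃ C : ℝ, ∀ x : ℕ, ∑ n ∈ Finset.Icc 1 x, ‖lam n‖ ^ 2 ≤ C * x) :
    ∀ η₁ η₂ : ℝ, 0 < η₁ → ∃ C : ℝ, ∀ ε η : ℝ, 0 < ε → ε ≤ 1 → η₁ ≤ η → η ≤ η₂ →
      ‖Fct (N := N) Zf u ((Real.pi : ℂ) - (ε + η * I))‖ ≤ C * (ε ^ e)⁻¹ := by
  intro η₁ η₂ hη
  obtain ⟨C, hC⟩ := (bConcl_of_concl h hZ.reflect hlam).2 η₁ η₂ hη
  refine ⟨C, fun ε η h1 h2 h3 h4 => ?_⟩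
  rw [fct_reflect]
  exact hC ε η h1 h2 h3 h4

end Pool.Agent.JO
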