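import Pool.Agent.Lib_helper84.JO.BGlue2
import Pool.Agent.Lib_helper42.JO1.Iface

/-!
# Project JO: glue of part B, the estimate on the whole strip
-/

set_option autoImplicit false

namespace Pool.Agent.JO

open Complex MeasureTheory Filter Topology
open UpperHalfPlane hiding I
open Pool.Agent.Lib_helper37.JO (HJ HJ1 strip)
open Pool.Agent.JO.FM1 (BConcl2)
open scoped MatrixGroups ComplexConjugate ENNReal

/-- **the final estimate**, both signs of the imaginary part -/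
theorem AmpB.bound_abs {N : ℕ} [NeZero N] {e : ℕ} {lam : ℕ → ℂ}
    {a : ZMod N × ZMod N → ℝ → ℂ} (h : AmpB (N := N) e lam a)
    {Zf : ZMod N × ZMod N → ℝ → ℝ → ℂ} (hZ : ZfB Zf)
    (hlam : ∃ C : ℝ, ∀ x : ℕ, ∑ n ∈ Finset.Icc 1 x, ‖lam n‖ ^ 2 ≤ C * x) (η₁ η₂ : ℝ)
    (hη : 0 < η₁) : ∃ C : ℝ, ∀ ε η : ℝ, 0 < ε → ε ≤ 1 → η₁ ≤ |η| → |η| ≤ η₂ →
      ‖Fc0 (N := N) Zf a (ε + η * I)‖ ≤ C * (ε ^ e)⁻¹ := by
  obtain ⟨CH, cH, hCH, hcH, hHJ⟩ := Pool.Agent.Lib_helper37.JO.HJ_bound_eta η₁ η₂ hη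
  have key : ∀ σ : ℝ, σ ^ 2 = 1 → ∃ C : ℝ, 0 ≤ C ∧ ∀ ε η : ℝ, 0 < ε → ε ≤ 1 → η₁ ≤ |η| →
      |η| ≤ η₂ → ∑ v ∈ PV N, ∫⁻ κ, ‖a v κ * Zf v σ κ * HJ σ κ (ε + η * I)‖ₑ ≤
        ENNReal.ofReal (C * (ε ^ e)⁻¹) := by
    intro σ hσ
    obtain ⟨δ, hδ0, hδ1, hmain⟩ := Pool.Agent.JOL.finalEstimate (PV N)
      (fun t v hv => pv_unit t hv) e lam hlam a (fun v hv => (h.meas v hv).aemeasurable)
      (by
        obtain ⟨C, d, hd, hC, -⟩ := h.amp
        refine ⟨d, hd, C, fun K hK P hP hPK PP hPP => ?_⟩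
        have h1 := hC K P hK (by exact_mod_cast hP) hPK PP (fun p hp => by
          obtain ⟨h2, h3, h4, h5, h6⟩ := hPP p hp
          exact ⟨h2, by exact_mod_cast h4, by exact_mod_cast h5, h3, h6⟩)
        rw [show K ^ (2 * (e : ℝ)) = K ^ (2 * e) by
          rw [← Real.rpow_natCast K (2 * e)]; push_cast; rfl] at h1
        simp_rw [app_eq]
        exact h1)
      (by
        obtain ⟨C, d, hd, -, hC⟩ := h.amp
        refine ⟨C, fun K hK => ?_⟩
        have h1 := hC K hK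
        rw [show K ^ (2 * (e : ℝ)) = K ^ (2 * e) by
          rw [← Real.rpow_natCast K (2 * e)]; push_cast; rfl] at h1
        exact h1)
      (by
        intro v hv
        have h4 := (h.sq v hv).2
        rw [hasFiniteIntegral_iff_norm] at h4
        refine (lt_of_le_of_lt (setLIntegral_le_lintegral _ _) ?_).ne
        simpa using h4)
      (fun v κ => Zf v σ κ)
      (by
        intro e' he'
        obtain ⟨C, hC⟩ := hZ.ms e' he'
        refine ⟨C, fun K hK v hv => ?_⟩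
        have h1 := hC v σ K hK
        obtain ⟨C₂, d, hd, hC₂⟩ := hZ.sup
        have hmZ := hZ.meas v σ
        have hset : {κ : ℝ | |κ| ≤ K} = Set.Icc (-K) K := by
          ext κ
          simp [abs_le]
        have hi : IntegrableOn (fun κ => ‖Zf v σ κ‖ ^ 2) (Set.Icc (-K) K) := by
          have hcont : ContinuousOn (fun κ : ℝ => (C₂ * (1 + |κ|) ^ (1 / 2 - d)) ^ 2)
              (Set.Icc (-K) K) := by
            refine ContinuousOn.pow (continuousOn_const.mul ?_) 2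
            refine ContinuousOn.rpow_const (by fun_prop) fun κ _ => Or.inl ?_
            positivity
          refine (hcont.integrableOn_compact isCompact_Icc).mono' (by fun_prop)
            (Filter.Eventually.of_forall fun κ => ?_)
          rw [Real.norm_of_nonneg (by positivity)]
          exact pow_le_pow_left₀ (norm_nonneg _) (hC₂ v σ κ) 2
        rw [hset, ← ofReal_integral_eq_lintegral_ofReal hi
          (Filter.Eventually.of_forall fun κ => by positivity)]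
        refine ENNReal.ofReal_le_ofReal ?_
        rw [integral_Icc_eq_integral_Ioc,
          ← intervalIntegral.integral_of_le (by linarith : -K ≤ K)]
        exact h1)
      (by
        obtain ⟨C₂, d, hd, hC₂⟩ := hZ.sup
        exact ⟨d, hd, C₂, fun v _ κ => hC₂ v σ κ⟩)
    obtain ⟨C, hC0, hC⟩ := hmain cH hcH
    refine ⟨C * CH, by positivity, fun ε η hε hε1 hη1 hη2 => ?_⟩
    have h2 := hC ε hε hε1 CH hCH.le (fun κ => HJ σ κ (ε + η * I)) (fun κ =>
      (hHJ σ hσ κ ε η hε (by linarith [Real.pi_gt_three]) hη1 hη2).1)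
    refine h2.trans (ENNReal.ofReal_le_ofReal ?_)
    refine mul_le_mul_of_nonneg_left ?_ (by positivity)
    split_ifs with h3
    · rw [h3]
      simp
    · rw [← Real.rpow_natCast ε e, ← Real.rpow_neg hε.le]
      exact Real.rpow_le_rpow_of_exponent_ge hε hε1 (by linarith)
  obtain ⟨C₁, hC₁0, hC₁⟩ := key 1 (by norm_num)
  obtain ⟨C₂, hC₂0, hC₂⟩ := key (-1) (by norm_num)
  refine ⟨C₁ + C₂, fun ε η hε hε1 hη1 hη2 => ?_⟩
  have hk0 : 0 < (ε ^ e)⁻¹ := by positivity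
  have h3 : ∀ (σ C : ℝ), 0 ≤ C →
      ∑ v ∈ PV N, ∫⁻ κ, ‖a v κ * Zf v σ κ * HJ σ κ (ε + η * I)‖ₑ ≤
        ENNReal.ofReal (C * (ε ^ e)⁻¹) →
      ∑ v ∈ PV N, ‖∫ κ : ℝ, a v κ * Zf v σ κ * HJ σ κ (ε + η * I)‖ ≤ C * (ε ^ e)⁻¹ := by
    intro σ C hC h4
    have h5 : ENNReal.ofReal (∑ v ∈ PV N, ‖∫ κ : ℝ, a v κ * Zf v σ κ * HJ σ κ (ε + η * I)‖) ≤
        ENNReal.ofReal (C * (ε ^ e)⁻¹) := by
      rw [ENNReal.ofReal_sum_of_nonneg (fun _ _ => norm_nonneg _)]
      refine (Finset.sum_le_sum fun v _ => ?_).trans h4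
      rw [ofReal_norm]
      exact enorm_integral_le_lintegral_enorm _
    exact (ENNReal.ofReal_le_ofReal_iff (by positivity)).1 h5
  unfold Fc0
  calc ‖∑ v ∈ PV N, ((∫ κ : ℝ, a v κ * Zf v 1 κ * HJ 1 κ (ε + η * I)) +
        ∫ κ : ℝ, a v κ * Zf v (-1) κ * HJ (-1) κ (ε + η * I))‖
      ≤ ∑ v ∈ PV N, (‖∫ κ : ℝ, a v κ * Zf v 1 κ * HJ 1 κ (ε + η * I)‖ +
          ‖∫ κ : ℝ, a v κ * Zf v (-1) κ * HJ (-1) κ (ε + η * I)‖) :=
        (norm_sum_le _ _).trans (Finset.sum_le_sum fun v _ => norm_add_le _ _)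
    _ ≤ C₁ * (ε ^ e)⁻¹ + C₂ * (ε ^ e)⁻¹ := by
      rw [Finset.sum_add_distrib]
      exact add_le_add (h3 1 C₁ hC₁0 (hC₁ ε η hε hε1 hη1 hη2))
        (h3 (-1) C₂ hC₂0 (hC₂ ε η hε hε1 hη1 hη2))
    _ = _ := by ring

/-- **the estimate of the continuous part on the whole strip** -/
theorem bConcl2_of_concl {N e : ℕ} [NeZero N] {lam : ℕ → ℂ} {u : ℍ → ℂ}
    (h : ConclB1 N e lam u) {Zf : ZMod N × ZMod N → ℝ → ℝ → ℂ} (hZ : ZfB Zf)
    (hlam : ∃ C : ℝ, ∀ x : ℕ, ∑ n ∈ Finset.Icc 1 x, ‖lam n‖ ^ 2 ≤ C * x) :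
    BConcl2 (N := N) Zf e u := by
  have hd : DifferentiableOn ℂ (Fct (N := N) Zf u) strip :=
    (ampB_of_concl h).differentiableOn hZ
  refine ⟨hd, fun η₁ η₂ hη => ?_⟩
  obtain ⟨C₁, hC₁⟩ := (ampB_of_concl h).bound_abs hZ hlam η₁ η₂ hη
  obtain ⟨C₂, hC₂⟩ := (ampB_of_concl h).bound_abs hZ.reflect hlam η₁ η₂ hη
  -- the middle
  have hK : IsCompact (Set.Icc (1 : ℝ) (Real.pi - 1) ×ℂ Set.Icc (-|η₂|) |η₂|) :=
    isCompact_Icc.reProdIm isCompact_Icc
  have hKs : (Set.Icc (1 : ℝ) (Real.pi - 1) ×ℂ Set.Icc (-|η₂|) |η₂|) ⊆ strip := by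
    intro θ hθ
    rw [Complex.mem_reProdIm] at hθ
    exact ⟨by linarith [hθ.1.1], by linarith [hθ.1.2]⟩
  obtain ⟨M, hM⟩ := hK.exists_bound_of_continuousOn (hd.continuousOn.mono hKs)
  refine ⟨|C₁| + |C₂| + |M| * (Real.pi / 2) ^ e, fun θ hθ h1 h2 => ?_⟩
  have hpi := Real.pi_gt_three
  have hr0 : 0 < θ.re := hθ.1
  have hr1 : θ.re < Real.pi := hθ.2
  have hm0 : 0 < min θ.re (Real.pi - θ.re) := lt_min hr0 (by linarith)
  have hmle : min θ.re (Real.pi - θ.re) ≤ Real.pi / 2 := by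
    rcases le_total θ.re (Real.pi / 2) with h3 | h3
    · exact (min_le_left _ _).trans h3
    · exact (min_le_right _ _).trans (by linarith)
  have hk0 : 0 < ((min θ.re (Real.pi - θ.re)) ^ e)⁻¹ := by positivity
  rcases le_total θ.re 1 with h3 | h3
  · have hmin : min θ.re (Real.pi - θ.re) = θ.re := min_eq_left (by linarith)
    have h4 := hC₁ θ.re θ.im hr0 h3 h1 h2
    rw [Complex.re_add_im] at h4
    rw [hmin] at hk0 ⊢
    refine h4.trans (mul_le_mul_of_nonneg_right ?_ hk0.le)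
    have := le_abs_self C₁
    have h5 := abs_nonneg C₂
    have h6 : 0 ≤ |M| * (Real.pi / 2) ^ e := by positivity
    linarith
  rcases le_total (Real.pi - θ.re) 1 with h3' | h3'
  · have hmin : min θ.re (Real.pi - θ.re) = Real.pi - θ.re := min_eq_right (by linarith)
    have h4 := hC₂ (Real.pi - θ.re) (-θ.im) (by linarith) h3' (by rwa [abs_neg])
      (by rwa [abs_neg])
    have h5 : Fct (N := N) Zf u θ = Fc0 (N := N) (fun v σ κ => Zf v (-σ) κ) (aM (N := N) u)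
        (((Real.pi - θ.re : ℝ) : ℂ) + ((-θ.im : ℝ) : ℂ) * I) := by
      have h6 := fct_reflect (N := N) Zf u ((((Real.pi - θ.re : ℝ) : ℂ) + ((-θ.im : ℝ) : ℂ) * I))
      have h7 : (Real.pi : ℂ) - ((((Real.pi - θ.re : ℝ) : ℂ) + ((-θ.im : ℝ) : ℂ) * I)) = θ := by
        apply Complex.ext
        · simp
        · simp
      rw [h7] at h6
      exact h6
    rw [h5, hmin]
    rw [hmin] at hk0
    refine h4.trans (mul_le_mul_of_nonneg_right ?_ hk0.le)
    have := le_abs_self C₂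
    have h5 := abs_nonneg C₁
    have h6 : 0 ≤ |M| * (Real.pi / 2) ^ e := by positivity
    linarith
  · have hmem : θ ∈ (Set.Icc (1 : ℝ) (Real.pi - 1) ×ℂ Set.Icc (-|η₂|) |η₂|) := by
      rw [Complex.mem_reProdIm]
      have h8 : |θ.im| ≤ |η₂| := h2.trans (le_abs_self _)
      exact ⟨⟨h3, by linarith⟩, abs_le.1 h8⟩
    have h4 := hM θ hmem
    have h5 : (1 : ℝ) ≤ (Real.pi / 2) ^ e * ((min θ.re (Real.pi - θ.re)) ^ e)⁻¹ := by
      rw [← div_eq_mul_inv, one_le_div (by positivity)]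
      exact pow_le_pow_left₀ hm0.le hmle e
    calc ‖Fct (N := N) Zf u θ‖ ≤ |M| * 1 := by
          rw [mul_one]
          exact h4.trans (le_abs_self _)
      _ ≤ |M| * ((Real.pi / 2) ^ e * ((min θ.re (Real.pi - θ.re)) ^ e)⁻¹) :=
          mul_le_mul_of_nonneg_left h5 (abs_nonneg _)
      _ = (|M| * (Real.pi / 2) ^ e) * ((min θ.re (Real.pi - θ.re)) ^ e)⁻¹ := by ring
      _ ≤ _ := by
          refine mul_le_mul_of_nonneg_right ?_ hk0.le
          have h7 := abs_nonneg C₁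
          have h8 := abs_nonneg C₂
          linarith

end Pool.Agent.JO
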