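import Pool.Agent.Lib_helper68.JO.Defs

/-! # Project JO: the weight -/

set_option autoImplicit false

namespace Pool.Agent.JO

/-- the weight function -/
noncomputable def bW (t : ℝ) : ℝ := max 0 (min 1 (6 - t))

theorem bW_meas : Measurable bW := by
  unfold bW
  fun_prop

theorem bW_nonneg (t : ℝ) : 0 ≤ bW t := le_max_left _ _

theorem bW_tst : Pool.Agent.JOM.Tst bW 1 6 := by
  refine ⟨zero_le_one, by norm_num, fun s t => ?_, fun t ht => ?_⟩
  · unfold bW
    rw [one_mul]
    calc |max 0 (min 1 (6 - s)) - max 0 (min 1 (6 - t))|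
        ≤ max |(0 : ℝ) - 0| |min 1 (6 - s) - min 1 (6 - t)| := abs_max_sub_max_le_max _ _ _ _
      _ ≤ |min 1 (6 - s) - min 1 (6 - t)| := by simp
      _ ≤ max |(1 : ℝ) - 1| |(6 - s) - (6 - t)| := abs_min_sub_min_le_max _ _ _ _
      _ = |s - t| := by
        rw [sub_self, abs_zero, show (6 - s) - (6 - t) = -(s - t) by ring, abs_neg]
        exact max_eq_right (abs_nonneg _)
  · unfold bW
    rw [max_eq_left]
    exact (min_le_right _ _).trans (by linarith)

theorem bW_lower (t : ℝ) (_ : 1 / 4 ≤ t) (h : t ≤ 9 / 2) : 1 ≤ bW t := by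
  unfold bW
  rw [min_eq_left (by linarith)]
  exact le_max_right _ _

end Pool.Agent.JO
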