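import Mathlib

/-!
# Project JO: the second moment of the coefficients from dyadic bounds
-/

set_option autoImplicit false

namespace Pool.Agent.JO

/-- the second moment of the coefficients from the dyadic bounds -/
theorem sq_of_dyad {a : ℕ → ℂ} {β : ℤ → ℂ}
    (hβ : ∀ m : ℕ, 0 < m → ‖a m‖ ^ 2 ≤ m * ‖β (m : ℤ)‖ ^ 2)
    (hd : ∃ C : ℝ, ∀ M : ℕ, 0 < M →
      ∑ m ∈ Finset.Icc M (2 * M), (‖β (m : ℤ)‖ ^ 2 + ‖β (-(m : ℤ))‖ ^ 2) ≤ C) :
    ∃ C : ℝ, ∀ x : ℕ, ∑ n ∈ Finset.Icc 1 x, ‖a n‖ ^ 2 ≤ C * x := by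
  obtain ⟨C, hC⟩ := hd
  have hC0 : 0 ≤ C := le_trans (Finset.sum_nonneg fun _ _ => by positivity) (hC 1 one_pos)
  refine ⟨4 * C, fun x => ?_⟩
  induction x using Nat.strong_induction_on with
  | _ x ih =>
    rcases Nat.eq_zero_or_pos x with rfl | hx
    · simp
    · obtain ⟨M, hM⟩ : ∃ M : ℕ, M = (x + 1) / 2 := ⟨_, rfl⟩
      have hM1 : 1 ≤ M := by omega
      have h1 := ih (M - 1) (by omega)
      have h2 : ∑ n ∈ Finset.Icc M (2 * M), ‖a n‖ ^ 2 ≤ 2 * M * C := by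
        calc ∑ n ∈ Finset.Icc M (2 * M), ‖a n‖ ^ 2
            ≤ ∑ n ∈ Finset.Icc M (2 * M),
              2 * (M : ℝ) * (‖β (n : ℤ)‖ ^ 2 + ‖β (-(n : ℤ))‖ ^ 2) := by
              refine Finset.sum_le_sum fun n hn => ?_
              rw [Finset.mem_Icc] at hn
              refine (hβ n (by omega)).trans ?_
              have h3 : (n : ℝ) ≤ 2 * M := by exact_mod_cast hn.2
              exact mul_le_mul h3 (le_add_of_nonneg_right (by positivity)) (by positivity)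
                (by positivity)
          _ = 2 * (M : ℝ) * ∑ n ∈ Finset.Icc M (2 * M),
              (‖β (n : ℤ)‖ ^ 2 + ‖β (-(n : ℤ))‖ ^ 2) := by rw [Finset.mul_sum]
          _ ≤ 2 * M * C := mul_le_mul_of_nonneg_left (hC M hM1) (by positivity)
      have h3 : Finset.Icc 1 x ⊆ Finset.Icc 1 (M - 1) ∪ Finset.Icc M (2 * M) := by
        intro n hn
        simp only [Finset.mem_union, Finset.mem_Icc] at hn ⊢
        omega
      have hdis : Disjoint (Finset.Icc 1 (M - 1)) (Finset.Icc M (2 * M)) := by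
        rw [Finset.disjoint_left]
        intro n hn hn'
        rw [Finset.mem_Icc] at hn hn'
        omega
      have h4 : ((M - 1 : ℕ) : ℝ) = M - 1 := by
        rw [Nat.cast_sub hM1, Nat.cast_one]
      have h5 : 2 * (M : ℝ) ≤ x + 1 := by
        have : 2 * M ≤ x + 1 := by omega
        exact_mod_cast this
      have h6 : (1 : ℝ) ≤ x := by exact_mod_cast hx
      calc ∑ n ∈ Finset.Icc 1 x, ‖a n‖ ^ 2
          ≤ ∑ n ∈ Finset.Icc 1 (M - 1) ∪ Finset.Icc M (2 * M), ‖a n‖ ^ 2 :=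
            Finset.sum_le_sum_of_subset_of_nonneg h3 (fun _ _ _ => by positivity)
        _ = ∑ n ∈ Finset.Icc 1 (M - 1), ‖a n‖ ^ 2 + ∑ n ∈ Finset.Icc M (2 * M), ‖a n‖ ^ 2 :=
            Finset.sum_union hdis
        _ ≤ 4 * C * ((M - 1 : ℕ) : ℝ) + 2 * M * C := add_le_add h1 h2
        _ ≤ 4 * C * x := by
            rw [h4]
            nlinarith

end Pool.Agent.JO
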