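import Pool.Agent.Lib_helper84.JO.BGlue
import Pool.Agent.Lib_helper84.JO.Contra
import Pool.Agent.Lib_helper42.JOF.FH
import Pool.Agent.Lib_helper97.JO.FHTop
import Pool.Agent.Lib_helper32.JO.N7
import Pool.Agent.Lib_helper50.ZP.ZfB

/-!
# Project JO: top level of the holomorphic half
-/

set_option autoImplicit false

namespace Pool.Agent.JO

open Complex MeasureTheory Filter Topology
open UpperHalfPlane hiding I
open Pool.Agent.Lib_helper37.JO (HJ HJ1 strip)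
open Pool.Agent.JOF (FF QQ fc Frame)
open scoped MatrixGroups ComplexConjugate

theorem im_ray {r θ : ℝ} : ((r : ℂ) * cexp (θ * I)).im = r * Real.sin θ := by
  rw [Complex.im_ofReal_mul, Complex.exp_ofReal_mul_I_im]

theorem norm_uhol_sq (k : ℕ) (f : ℍ → ℂ) (z : ℍ) :
    ‖uhol k f z‖ ^ 2 = z.im ^ k * ‖f z‖ ^ 2 := by
  unfold uhol
  rw [norm_mul, mul_pow, Complex.norm_real, Real.norm_of_nonneg (Real.rpow_nonneg z.im_pos.le _),
    ← Real.rpow_natCast, ← Real.rpow_mul z.im_pos.le]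
  congr 1
  rw [show ((k : ℝ) / 2 * ((2 : ℕ) : ℝ)) = (k : ℝ) by push_cast; ring, Real.rpow_natCast]

theorem ff_eq_rayF {N k : ℕ} {a b : ℕ → ℂ} {F : ℍ → ℂ} {g : ℂ → ℂ} {c : ℂ} {M : ℝ}
    (h : Frame k N a b (fc F) g c M) {θ : ℝ} (hθ : θ ∈ Set.Ioo (0 : ℝ) Real.pi) :
    FF k (fc F) θ = rayF (uhol k F) θ := by
  rw [(Pool.Agent.JOF.ff_real h hθ.1 hθ.2).2]
  unfold rayF ray
  rw [← integral_complex_ofReal]
  refine setIntegral_congr_fun measurableSet_Ioi fun r hr => ?_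
  simp only
  have hr' : (0 : ℝ) < r := hr
  have hs : 0 < Real.sin θ := Real.sin_pos_of_pos_of_lt_pi hθ.1 hθ.2
  have him : 0 < ((r : ℂ) * cexp (θ * I)).im := by
    rw [im_ray]
    positivity
  rw [norm_uhol_sq]
  have h1 : (ofComplex ((r : ℂ) * cexp (θ * I)) : ℍ).im = r * Real.sin θ := by
    rw [ofComplex_apply_of_im_pos him]
    exact im_ray
  rw [h1]
  push_cast
  rfl

/-- **Reduction of the holomorphic half** to the spectral part and the final estimate. -/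
theorem hol_top (Zf : ∀ N : ℕ, [NeZero N] → ZMod N × ZMod N → ℝ → ℝ → ℂ)
    (hSE : ∀ (N : ℕ) [NeZero N], SEHol N (Zf N))
    (hdec : ∀ (N k : ℕ) [NeZero N] (χ : DirichletCharacter ℂ N)
      (F : CuspForm (CongruenceSubgroup.Gamma1 N) (k : ℤ)) (lam : ℕ → ℂ), 1 ≤ k →
      IsHolEigenform N k χ F lam → aMDec N (uhol k F))
    (hB : ∀ (N k : ℕ) [NeZero N] (χ : DirichletCharacter ℂ N)
      (F : CuspForm (CongruenceSubgroup.Gamma1 N) (k : ℤ)) (lam : ℕ → ℂ), 1 ≤ k →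
      IsHolEigenform N k χ F lam → BConcl (N := N) (Zf N) k (uhol k F)) :
    HolStatement := by
  refine Pool.Agent.JOF.hol_reduction ?_
  intro N k _ χ F lam hk hF α β hasym
  obtain ⟨b, g, M, -, hfr⟩ := Pool.Agent.JOF.fh_frame hk hF
  have heq : ∀ θ : ℝ, θ ∈ Set.Ioo (0 : ℝ) Real.pi → FF k (fc F) θ = rayF (uhol k F) θ :=
    fun θ hθ => ff_eq_rayF hfr hθ
  have hasym' : (fun θ : ℝ => rayF (uhol k F) θ - ((α * Real.log θ⁻¹ + β : ℝ) : ℂ)) =o[𝓝[>] 0]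
      (fun θ : ℝ => √θ) := by
    refine hasym.congr' ?_ EventuallyEq.rfl
    have h1 : Set.Ioo (0 : ℝ) Real.pi ∈ 𝓝[>] (0 : ℝ) := Ioo_mem_nhdsGT Real.pi_pos
    filter_upwards [h1] with θ hθ
    rw [heq θ hθ]
  obtain ⟨R, hR, hdecomp, hRb⟩ := hSE N χ k lam (uhol k F) (wform_hol hk hF)
    (hdec N k χ F lam hk hF) α β hasym'
  obtain ⟨hFd, hFb⟩ := hB N k χ F lam hk hF
  have hFFd : DifferentiableOn ℂ (FF k (fc F)) strip := by
    have h1 := Pool.Agent.JOF.qq_hol hfr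
    have h2 : DifferentiableOn ℂ (fun θ : ℂ => (Complex.sin θ) ^ k) strip := by
      fun_prop
    exact h2.mul h1
  have hall : Set.EqOn (FF k (fc F)) (fun θ => Fct (N := N) (Zf N) (uhol k F) θ + R θ) strip :=
    eqOn_strip hFFd (hFd.add hR) fun θ hθ => (heq θ hθ).trans (hdecomp θ hθ)
  refine ⟨1, one_pos, fun η hη => ?_⟩
  obtain ⟨C₁, hC₁⟩ := hFb η η hη
  obtain ⟨C₂, hC₂⟩ := hRb η η hη
  refine ⟨|C₁| + |C₂|, fun ε hε hε1 => ?_⟩
  have hmem : ((ε : ℂ) + η * I) ∈ strip := by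
    have h3 : ((ε : ℂ) + η * I).re = ε := by simp
    constructor
    · rw [h3]
      exact hε
    · rw [h3]
      linarith [Real.pi_gt_three]
  rw [hall hmem]
  have h1 := hC₁ ε η hε hε1.le le_rfl le_rfl
  have h2 := hC₂ ε η hε hε1.le le_rfl le_rfl
  have hk0 : 0 < (ε ^ k)⁻¹ := by positivity
  have hk1 : 1 ≤ (ε ^ k)⁻¹ := by
    rw [one_le_inv₀ (by positivity)]
    exact pow_le_one₀ hε.le hε1.le
  calc ‖Fct (N := N) (Zf N) (uhol k F) (ε + η * I) + R (ε + η * I)‖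
      ≤ C₁ * (ε ^ k)⁻¹ + C₂ := (norm_add_le _ _).trans (add_le_add h1 h2)
    _ ≤ |C₁| * (ε ^ k)⁻¹ + |C₂| * (ε ^ k)⁻¹ := by
      refine add_le_add (mul_le_mul_of_nonneg_right (le_abs_self _) hk0.le) ?_
      calc C₂ ≤ |C₂| := le_abs_self _
        _ = |C₂| * 1 := (mul_one _).symm
        _ ≤ |C₂| * (ε ^ k)⁻¹ := mul_le_mul_of_nonneg_left hk1 (abs_nonneg _)
    _ = (|C₁| + |C₂|) * (ε ^ k)⁻¹ := by ring

/-- the conclusion of part B1 for holomorphic forms -/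
theorem conclB1_hol {β : ℝ → ℝ} (hβm : Measurable β) {c0 : ℝ} (hc0 : 0 < c0)
    (hβ : ∀ t, 1 / 4 ≤ t → t ≤ 9 / 2 → c0 ≤ β t)
    (hH : ∀ (N k : ℕ) [NeZero N] (χ : DirichletCharacter ℂ N) (lam : ℕ → ℂ) (u : ℍ → ℂ),
      WForm N χ k lam u → BoxH N k lam u β) {N k : ℕ} [NeZero N] {χ : DirichletCharacter ℂ N}
    {F : CuspForm (CongruenceSubgroup.Gamma1 N) (k : ℤ)} {lam : ℕ → ℂ} (hk : 1 ≤ k)
    (hF : IsHolEigenform N k χ F lam) : ConclB1 N k lam (uhol k F) := by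
  have hu := wform_hol hk hF
  have he := hasExp_hol hk hF
  have hW : Whol k = hW k := by
    funext y
    unfold Whol hW
    rw [neg_mul, neg_mul]
  rw [hW] at he
  exact b1_main hu he (locData_hol hk) hβm hc0 hβ (hH N k χ lam _ hu)

/-- **the holomorphic half** from the amplified mean square and the spectral part -/
theorem hol_final {β : ℝ → ℝ} (hβm : Measurable β) {c0 : ℝ} (hc0 : 0 < c0)
    (hβ : ∀ t, 1 / 4 ≤ t → t ≤ 9 / 2 → c0 ≤ β t)
    (hH : ∀ (N k : ℕ) [NeZero N] (χ : DirichletCharacter ℂ N) (lam : ℕ → ℂ) (u : ℍ → ℂ),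
      WForm N χ k lam u → BoxH N k lam u β)
    (hSE : ∀ (N : ℕ) [NeZero N], SEHol N (Zf N)) : HolStatement :=
  hol_top (fun N _ => Zf N) hSE
    (fun _ _ _ _ _ _ hk hF => aMDec_of_concl (conclB1_hol hβm hc0 hβ hH hk hF))
    (fun N _ _ _ _ _ hk hF => bConcl_of_concl (conclB1_hol hβm hc0 hβ hH hk hF)
      (Pool.Agent.ZP.zfB N) (lam_sq_hol hk hF))

end Pool.Agent.JO
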