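import Pool.Agent.Lib_helper84.JO.HolFinal
import Pool.Agent.Lib_helper84.JO.Beta
import Pool.Agent.Lib_helper68.JOHF.FINB
import Pool.Agent.Lib_helper58.JOS.SHol

/-! # Project JO: the holomorphic half -/

set_option autoImplicit false

namespace Pool.Agent.JO

theorem hol_statement : HolStatement :=
  hol_final bW_meas one_pos bW_lower
    (fun _ _ _ _ _ _ hu => box_H hu bW_tst bW_nonneg)
    (fun N _ => Pool.Agent.JOS.se_hol (Pool.Agent.ZP.zfB N))

end Pool.Agent.JO
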