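import Pool.Agent.Lib_helper84.JO.MVan1
import Pool.Agent.Lib_helper58.JOS.MSe0
import Pool.Agent.Lib_helper42.JO1.EXT2
import Pool.Agent.Lib_helper42.JO1.Iface

/-! # JO, part S: the target statement for Maass forms of weight `1` -/

set_option autoImplicit false

namespace Pool.Agent.JOS

open Complex MeasureTheory Filter Topology UpperHalfPlane ModularGroup Set Metric
open scoped MatrixGroups Modular ENNReal ComplexConjugate ContDiff
open Pool.Agent.JO (QN red FamH PV bot cH ZfB Zf meanH melL2)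
open Pool.Agent.Lib_helper37.JO (HJ)
open Pool.Agent.JO.FM1 (kS kD kp km)

variable {N : ℕ} [NeZero N]

/-- the ray integral of `|u|²` is real -/
theorem ray_phi_im (u : ℍ → ℂ) (θ : ℝ) :
    (Pool.Agent.JO.ray (Pool.Agent.JO.FM.phi u) θ).im = 0 := by
  have h : Pool.Agent.JO.ray (Pool.Agent.JO.FM.phi u) θ =
      ((∫ r in Ioi (0 : ℝ), ‖u (ofComplex (r * cexp (θ * Complex.I)))‖ ^ 2 / r : ℝ) : ℂ) := by
    rw [← integral_complex_ofReal]
    unfold Pool.Agent.JO.ray Pool.Agent.JO.FM.phi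
    refine setIntegral_congr_fun measurableSet_Ioi fun r _ => ?_
    push_cast
    rfl
  rw [h, Complex.ofReal_im]

/-- **the target statement of part S for Maass forms of weight `1`** -/
theorem se_maass1 (hZ : ZfB (Zf N)) : Pool.Agent.JO.FM1.SEMaass1 N (Zf N) := by
  intro χ u a ν ε hu hcusp hF1 hdec hrel
  have hv : InvD N (Pool.Agent.JO.FM.phi u) := invD_phi hu
  set F₁ : ℝ → ℂ := Pool.Agent.JO.ray (Pool.Agent.JO.FM.phi u) with hF₁
  obtain ⟨g₁, e₁⟩ := hv.ep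
  obtain ⟨V, i1, i2, i3, ⟨M⟩⟩ := exists_model (N := N)
  obtain ⟨w₁, H₁⟩ := M.comps (M.J g₁)
  set S : Set ℝ := {l | w₁ (some l) ≠ 0} with hS
  have hScount : Countable S := H₁.countable_set.to_subtype
  obtain ⟨Λ₀, hΛ, hvan⟩ := van1 hF1.nu
  have hreal : ∀ θ ∈ Ioo 0 Real.pi, (F₁ θ).im = 0 := fun θ _ => ray_phi_im u θ
  -- the components with large eigenvalue vanish
  have hz : ∀ k l : TKs, ∀ m : ℝ, Λ₀ < m → ∀ θ ∈ Ioo 0 Real.pi,
      cf M k (D3 l) (w₁ (some m)) θ = 0 := by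
    intro k l m hm θ hθ
    by_cases hm0 : w₁ (some m) = 0
    · simp [cf, hm0]
    obtain ⟨C₁, s₁⟩ := H₁.sf2 S (fun l hl => hl) k (D3 l)
    obtain ⟨E₁, hE₁, t₁⟩ := pairT hZ e₁ hv.gr.c M k l
    have h0 : Real.pi / 4 ∈ Pool.Agent.SP.II :=
      ⟨by linarith [Real.pi_pos], by linarith [Real.pi_pos]⟩
    obtain ⟨A, R, hA1, hA2, hA3⟩ := hrel _ h0
    exact hvan S (fun i => i.1) _ _ _ _ _ Subtype.coe_injective s₁ F₁ E₁ hv.gr hE₁ hreal k (D3 l)
      t₁ A _ R h0 ⟨hA1, hA2⟩ (fun s hs hR => by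
        rw [← dtFM1_eq, ← dtFM1_eq]
        exact hA3 s hs hR) ⟨m, hm0⟩ hm θ hθ
  -- the regular part
  have hwi : ∀ i ∈ IC N, WI (ms2 (vF (N := N) (Pool.Agent.JO.FM.phi u)) i) := wi_phi hZ hu hdec
  have hh : ContinuousOn (fun θ => F₁ θ -
      ∑ i ∈ IC N, fcc (sg i.2) (ms2 (vF (N := N) (Pool.Agent.JO.FM.phi u)) i) θ) (Ioo 0 Real.pi) :=
    hv.gr.c.sub (continuousOn_finsetSum _ (fun i hi => fc_cont (sg_sq i.2) (hwi i hi).integrable))
  have hExt := ext_of_vanish M g₁ e₁.hS hh (e₁.pair_h hv.gr.c hwi) H₁ Λ₀ hz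
  obtain ⟨R, h1, h2, h3⟩ := ext_concl2 hExt
  refine ⟨R, h1, fun θ hθ => ?_, h3⟩
  rw [h2 θ hθ]
  have h4 := concl_of_ext hu θ
  have h5 : Pool.Agent.JO.rayF u θ = F₁ θ := rfl
  have h6 : ∑ i ∈ IC N, fcc (sg i.2) (ms2 (vF (N := N) (Pool.Agent.JO.FM.phi u)) i) θ =
      Pool.Agent.JO.Fct (N := N) (Zf N) u θ := h4
  rw [h5, h6]
  ring

end Pool.Agent.JOS
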