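import Pool.Agent.Lib_helper58.JOS.MSym
import Pool.Agent.Lib_helper42.JO1F.PH2

/-! # JO, part S, Maass forms of weight `1`: vanishing of the components -/

set_option autoImplicit false

namespace Pool.Agent.JOS

open Complex MeasureTheory Filter Topology UpperHalfPlane ModularGroup Set Metric
open scoped MatrixGroups Modular ENNReal ComplexConjugate ContDiff
open Pool.Agent.JO (QN red FamH PV bot cH ZfB Zf meanH melL2)
open Pool.Agent.Lib_helper37.JO (HJ)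
open Pool.Agent.JO.FM1 (kS kD kp km)

/-- the two transforms are the same -/
theorem dtFM1_eq (θ₀ : ℝ) (G : ℝ → ℂ) (s : ℂ) : Pool.Agent.JO.FM.Dt G θ₀ s = Dt θ₀ G s := by
  unfold Pool.Agent.JO.FM.Dt
  rw [Dt_eq]

theorem mv1_gam {g : ℂ → ℂ} {s : ℂ} (hg : DifferentiableAt ℂ g s) (h : 0 < (g s).re) :
    DifferentiableAt ℂ (fun s => Gamma (g s)) s := by
  have h1 : ∀ m : ℕ, g s ≠ -m := by
    intro m hm
    have h2 := congrArg Complex.re hm
    rw [Complex.neg_re, Complex.natCast_re] at h2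
    have h3 : (0 : ℝ) ≤ m := Nat.cast_nonneg m
    linarith
  exact (differentiableAt_Gamma _ h1).comp s hg

/-- holomorphy of `κ₊ + κ₋` -/
theorem kS_diff {ν : ℂ} (hν : ν.re = 0) : DifferentiableOn ℂ (kS ν) Q0 := by
  intro s hs
  have h0 : 0 < s.re := hs.1
  have r1 : (s / 2).re = s.re / 2 := by simp
  have r2 : ((s + 1) / 2 + ν).re = (s.re + 1) / 2 := by
    rw [Complex.add_re, hν, add_zero]
    simp
  have r3 : ((s + 1) / 2 - ν).re = (s.re + 1) / 2 := by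
    rw [Complex.sub_re, hν, sub_zero]
    simp
  have d0 : DifferentiableAt ℂ (fun s : ℂ => Gamma (s / 2)) s :=
    mv1_gam (by fun_prop) (by rw [r1]; linarith)
  have d1 : DifferentiableAt ℂ (fun s : ℂ => Gamma ((s + 1) / 2 + ν)) s :=
    mv1_gam (by fun_prop) (by rw [r2]; linarith)
  have d2 : DifferentiableAt ℂ (fun s : ℂ => Gamma ((s + 1) / 2 - ν)) s :=
    mv1_gam (by fun_prop) (by rw [r3]; linarith)
  have d3 : DifferentiableAt ℂ (fun s : ℂ => Gamma s) s := mv1_gam (by fun_prop) h0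
  have d4 : DifferentiableAt ℂ (fun s : ℂ => (2 : ℂ) ^ (s - 1)) s :=
    DifferentiableAt.const_cpow (by fun_prop) (Or.inl two_ne_zero)
  have h5 : Gamma s ≠ 0 := Gamma_ne_zero_of_re_pos h0
  have h6 : DifferentiableAt ℂ (kS ν) s := by
    unfold kS
    exact (((d4.mul (d0.pow 2)).mul d1).mul d2).div d3 h5
  exact h6.differentiableWithinAt

/-- holomorphy of `κ₊ - κ₋` -/
theorem kD_diff {ν : ℂ} (hν : ν.re = 0) : DifferentiableOn ℂ (kD ν) Q0 := by
  intro s hs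
  have h0 : 0 < s.re := hs.1
  have r1 : ((s + 1) / 2).re = (s.re + 1) / 2 := by simp
  have r2 : (s / 2 + ν).re = s.re / 2 := by
    rw [Complex.add_re, hν, add_zero]
    simp
  have r3 : (s / 2 - ν).re = s.re / 2 := by
    rw [Complex.sub_re, hν, sub_zero]
    simp
  have d0 : DifferentiableAt ℂ (fun s : ℂ => Gamma ((s + 1) / 2)) s :=
    mv1_gam (by fun_prop) (by rw [r1]; linarith)
  have d1 : DifferentiableAt ℂ (fun s : ℂ => Gamma (s / 2 + ν)) s :=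
    mv1_gam (by fun_prop) (by rw [r2]; linarith)
  have d2 : DifferentiableAt ℂ (fun s : ℂ => Gamma (s / 2 - ν)) s :=
    mv1_gam (by fun_prop) (by rw [r3]; linarith)
  have d3 : DifferentiableAt ℂ (fun s : ℂ => Gamma s) s := mv1_gam (by fun_prop) h0
  have d4 : DifferentiableAt ℂ (fun s : ℂ => (2 : ℂ) ^ (s - 1)) s :=
    DifferentiableAt.const_cpow (by fun_prop) (Or.inl two_ne_zero)
  have h5 : Gamma s ≠ 0 := Gamma_ne_zero_of_re_pos h0
  have h6 : DifferentiableAt ℂ (kD ν) s := by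
    unfold kD
    exact (((d4.mul (d0.pow 2)).mul d1).mul d2).div d3 h5
  exact h6.differentiableWithinAt

theorem kp_diff {ν : ℂ} (hν : ν.re = 0) : DifferentiableOn ℂ (kp ν) Q0 := by
  have h : kp ν = fun s => (kS ν s + kD ν s) / 2 := rfl
  rw [h]
  exact ((kS_diff hν).add (kD_diff hν)).div_const 2

theorem km_diff {ν : ℂ} (hν : ν.re = 0) : DifferentiableOn ℂ (km ν) Q0 := by
  have h : km ν = fun s => (kS ν s - kD ν s) / 2 := rfl
  rw [h]
  exact ((kS_diff hν).sub (kD_diff hν)).div_const 2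

/-- **the vanishing of the components**, weight `1` -/
theorem van1 {ν : ℂ} (hν : ν.re = 0) : ∃ Λ₀ : ℝ, 1 / 4 ≤ Λ₀ ∧
    ∀ (ι : Type) [Countable ι] (lam : ι → ℝ) (c c' : ι → ℝ → ℂ) (G : ℝ → ℂ) (A C : ℝ),
    Function.Injective lam → SF2 lam c c' G A C →
    ∀ (F E : ℝ → ℂ), Gr F → FS E →
    (∀ θ ∈ Ioo 0 Real.pi, (F θ).im = 0) →
    ∀ k l : TKs, (∀ θ ∈ Ioo 0 Real.pi, G θ = KK k.1 (KK l.1 F) θ - E θ) →
    ∀ (M : ℂ → ℂ) (θ₀ R : ℝ), θ₀ ∈ Pool.Agent.SP.II → Adm M →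
    (∀ s : ℂ, s ∈ Pool.Agent.SP.QQ → R < s.re →
      km ν s * Dt θ₀ F s - kp ν s * Dt θ₀ (fun θ => F (Real.pi - θ)) s = M s) →
    ∀ i, Λ₀ < lam i → ∀ θ ∈ Ioo 0 Real.pi, c i θ = 0 := by
  obtain ⟨Λ₀, hΛ, hph⟩ := Pool.Agent.JO.FM1.phase_step1 hν
  refine ⟨Λ₀, hΛ, ?_⟩
  intro ι _ lam c c' G A C hinj h F E hF hE hreal k l hG M θ₀ R h0 hM hrel i hi
  obtain ⟨C₁, hc⟩ := h.rp
  have hR := fun θ => kk2_real k l hreal (F := F) θ
  have e : ∀ θ ∈ Ioo 0 Real.pi, rp G θ = KK k.1 (KK l.1 F) θ - rp E θ := by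
    intro θ hθ
    unfold rp
    rw [hG θ hθ, map_sub, hR θ]
    ring
  have e' : ∀ θ ∈ Ioo 0 Real.pi, rp G (Real.pi - θ) =
      KK k.1 (KK l.1 (fun t => F (Real.pi - t))) θ - rp E (Real.pi - θ) := by
    intro θ hθ
    rw [e _ (pi_sub_mem hθ), kk2_refl]
  -- the relation
  obtain ⟨M', R', hM', hrel'⟩ := rel_gen (km_diff hν) (kp_diff hν) hF hF.refl hE.rp hE.rp.refl h0
    hM hrel k l
  have hDt : ∀ (G G' : ℝ → ℂ), (∀ θ ∈ Ioo 0 Real.pi, G θ = G' θ) → ∀ s,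
      Dt θ₀ G s = Dt θ₀ G' s := by
    intro G G' h s
    unfold Dt
    refine setIntegral_congr_fun measurableSet_Ioo (fun t ht => ?_)
    rw [h t (II_sub (Pool.Agent.SP.sub_II h0 ht))]
  have hmid : Real.pi / 2 ∈ Ioo 0 Real.pi := ⟨by linarith [Real.pi_pos], by linarith [Real.pi_pos]⟩
  have key := hph ι lam (fun i => rp (c i)) (fun i => rp (c' i)) (rp G) A (C₁ * 2 ^ A) M' θ₀ R'
    hinj hc.solFam hc.refl.solFam (fun i => ⟨hc.cont1 i hmid, hc.cont2 i hmid⟩)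
    (fun θ _ => ⟨rp_im _ _, rp_im _ _⟩) h0 hM'.1 hM'.2 (by
      intro s hs hsR
      rw [dtFM1_eq, dtFM1_eq, hDt _ _ e, hDt _ _ e']
      exact hrel' s hs hsR) i hi
  -- the rest
  have hrest := h.sub hc
  have hz := hrest.van_fs hinj (E := fun θ => (-1) * (E θ - rp E θ)) ((hE.sub hE.rp).smul (-1))
    (fun θ hθ => by
      show G θ - rp G θ = _
      rw [hG θ hθ, e θ hθ]
      ring) i (by linarith)
  refine h.zero_of_II i (fun θ hθ => ?_)
  have z1 := hz θ (II_sub hθ)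
  have z2 := (key θ hθ).1
  have z3 : c i θ - rp (c i) θ = 0 := z1
  have z4 : rp (c i) θ = 0 := z2
  rw [z4, sub_zero] at z3
  exact z3

end Pool.Agent.JOS
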