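import Pool.Agent.Lib_helper84.JO.BGlue
import Pool.Agent.Lib_helper84.JO.Dyad
import Pool.Agent.Lib_helper45.JOM.Top0
import Pool.Agent.Lib_helper32.JO.N7
import Pool.Agent.Lib_helper50.ZP.ZfB
import Pool.Agent.Lib_helper87.JO.L3j

/-!
# Project JO: top level of the Maass half, weight 0
-/

set_option autoImplicit false

namespace Pool.Agent.JO

open Complex MeasureTheory Filter Topology
open UpperHalfPlane hiding I
open Pool.Agent.JO.FM
open scoped MatrixGroups ComplexConjugate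

open scoped Classical in
/-- `Zf` as a function of all levels -/
noncomputable def ZfT (N : ℕ) : ZMod N × ZMod N → ℝ → ℝ → ℂ :=
  if h : NeZero N then @Zf N h else fun _ _ _ => 0

theorem zfT_eq (N : ℕ) [h : NeZero N] : ZfT N = Zf N := by
  unfold ZfT
  rw [dif_pos h]

/-- `∑_{n ≤ x} |a(n)|² ≤ C x` for Hecke-Maass forms of weight `0` -/
theorem lam_sq_maass0 {N : ℕ} [NeZero N] {χ : DirichletCharacter ℂ N} {ev : ℝ} {f : ℍ → ℂ}
    {a : ℕ → ℂ} (h : IsHeckeMaass N χ 0 ev f a) :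
    ∃ C : ℝ, ∀ x : ℕ, ∑ n ∈ Finset.Icc 1 x, ‖a n‖ ^ 2 ≤ C * x := by
  obtain ⟨ν, ε, f₁, -, -, F⟩ := frame0_exists h
  refine sq_of_dyad (fun m hm => ?_) F.expn.dyad
  have hm' : (0 : ℝ) < m := by exact_mod_cast hm
  have h1 : cf ε a (m : ℤ) = a m * ((√(m : ℝ) : ℝ) : ℂ)⁻¹ := by
    unfold cf
    rw [if_neg (by omega), if_neg (by omega), one_mul, Int.natAbs_natCast]
  rw [h1, norm_mul, norm_inv, Complex.norm_real, Real.norm_of_nonneg (Real.sqrt_nonneg _), mul_pow,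
    inv_pow, Real.sq_sqrt hm'.le]
  field_simp
  exact le_rfl

/-- the conclusion of part B1 for Maass forms of weight `0` -/
theorem conclB1_maass0 {β : ℝ → ℝ} (hβm : Measurable β) {c0 : ℝ} (hc0 : 0 < c0)
    (hβ : ∀ t, 1 / 4 ≤ t → t ≤ 9 / 2 → c0 ≤ β t)
    (hH : ∀ (N k : ℕ) [NeZero N] (χ : DirichletCharacter ℂ N) (lam : ℕ → ℂ) (u : ℍ → ℂ),
      WForm N χ k lam u → BoxH N k lam u β) {N : ℕ} [NeZero N] {χ : DirichletCharacter ℂ N}
    {ev : ℝ} {f : ℍ → ℂ} {a : ℕ → ℂ} (h : IsHeckeMaass N χ 0 ev f a) : ConclB1 N 0 a f := by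
  obtain ⟨ν, ε, f₁, hev, -, F⟩ := frame0_exists h
  have hu := wform_maass0 h
  exact b1_main hu (hasExp_maass0 h F.nu hev) (Pool.Agent.JOL.locData_maass0 F.nu) hβm hc0 hβ
    (hH N 0 χ a f hu)

/-- **the Maass half, weight `0`** -/
theorem maass0_final {β : ℝ → ℝ} (hβm : Measurable β) {c0 : ℝ} (hc0 : 0 < c0)
    (hβ : ∀ t, 1 / 4 ≤ t → t ≤ 9 / 2 → c0 ≤ β t)
    (hH : ∀ (N k : ℕ) [NeZero N] (χ : DirichletCharacter ℂ N) (lam : ℕ → ℂ) (u : ℍ → ℂ),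
      WForm N χ k lam u → BoxH N k lam u β)
    (hSE : ∀ (N : ℕ) [NeZero N], SEMaass0 N (Zf N))
    (N : ℕ) [NeZero N] (χ : DirichletCharacter ℂ N) (ev : ℝ) (f : ℍ → ℂ) (a : ℕ → ℂ)
    (h : IsHeckeMaass N χ 0 ev f a) : OmegaConclusion a := by
  refine maass_top0 ZfT (fun N _ => ?_) (fun N _ χ ev f a h => ?_) (fun N _ χ ev f a h => ?_)
    N χ ev f a h
  · rw [zfT_eq]
    exact hSE N
  · exact aMDec_of_concl (conclB1_maass0 hβm hc0 hβ hH h)
  · rw [zfT_eq]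
    exact bConcl_of_concl (conclB1_maass0 hβm hc0 hβ hH h) (Pool.Agent.ZP.zfB N)
      (lam_sq_maass0 h)

end Pool.Agent.JO
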