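import Pool.Agent.Lib_helper84.JO.BGlue3
import Pool.Agent.Lib_helper84.JO.Dyad
import Pool.Agent.Lib_helper84.JO.Maass0
import Pool.Agent.Lib_helper42.JO1F.Top1
import Pool.Agent.Lib_helper32.JO.N7
import Pool.Agent.Lib_helper50.ZP.ZfB
import Pool.Agent.Lib_helper87.JO.L3m

/-!
# Project JO: top level of the Maass half, weight 1
-/

set_option autoImplicit false

namespace Pool.Agent.JO

open Complex MeasureTheory Filter Topology
open UpperHalfPlane hiding I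
open Pool.Agent.JO.FM Pool.Agent.JO.FM1
open scoped MatrixGroups ComplexConjugate

/-- `∑_{n ≤ x} |a(n)|² ≤ C x` for Hecke-Maass forms of weight `1` -/
theorem lam_sq_maass1 {ν : ℂ} {ε : ℝ} {a : ℕ → ℂ} {u : ℍ → ℂ} (F : Frame1 ν ε a u) :
    ∃ C : ℝ, ∀ x : ℕ, ∑ n ∈ Finset.Icc 1 x, ‖a n‖ ^ 2 ≤ C * x := by
  refine sq_of_dyad (fun m hm => ?_) F.expn.dyad
  have hm' : (0 : ℝ) < m := by exact_mod_cast hm
  have h1 : cf1 ν ε a (m : ℤ) = a m * ((√(m : ℝ) : ℝ) : ℂ)⁻¹ := by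
    unfold cf1
    rw [if_neg (by omega), if_neg (by omega), one_mul, Int.natAbs_natCast]
  rw [h1, norm_mul, norm_inv, Complex.norm_real, Real.norm_of_nonneg (Real.sqrt_nonneg _), mul_pow,
    inv_pow, Real.sq_sqrt hm'.le]
  field_simp
  exact le_rfl

/-- the conclusion of part B1 for Maass forms of weight `1` -/
theorem conclB1_maass1 {β : ℝ → ℝ} (hβm : Measurable β) {c0 : ℝ} (hc0 : 0 < c0)
    (hβ : ∀ t, 1 / 4 ≤ t → t ≤ 9 / 2 → c0 ≤ β t)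
    (hH : ∀ (N k : ℕ) [NeZero N] (χ : DirichletCharacter ℂ N) (lam : ℕ → ℂ) (u : ℍ → ℂ),
      WForm N χ k lam u → BoxH N k lam u β) {N : ℕ} [NeZero N] {χ : DirichletCharacter ℂ N}
    {ν : ℂ} {ε : ℝ} {a : ℕ → ℂ} {u : ℍ → ℂ} (hu : WForm N χ 1 a u) (hc : Cusp1 N ν u)
    (F : Frame1 ν ε a u) : ConclB1 N 1 a u :=
  b1_main hu (hasExp1 F.nu hc)
    (Pool.Agent.JOL.locData_fm1 F.nu F.nune fun x hx => (Vm_eq ν hx).2) hβm hc0 hβ
    (hH N 1 χ a u hu)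

/-- **the Maass half, weight `1`** -/
theorem maass1_final (hHol : HolStatement) {β : ℝ → ℝ} (hβm : Measurable β) {c0 : ℝ}
    (hc0 : 0 < c0) (hβ : ∀ t, 1 / 4 ≤ t → t ≤ 9 / 2 → c0 ≤ β t)
    (hH : ∀ (N k : ℕ) [NeZero N] (χ : DirichletCharacter ℂ N) (lam : ℕ → ℂ) (u : ℍ → ℂ),
      WForm N χ k lam u → BoxH N k lam u β)
    (hSE : ∀ (N : ℕ) [NeZero N], SEMaass1 N (Zf N))
    (N : ℕ) [NeZero N] (χ : DirichletCharacter ℂ N) (ev : ℝ) (f : ℍ → ℂ) (a : ℕ → ℂ)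
    (h : IsHeckeMaass N χ 1 ev f a) : OmegaConclusion a := by
  refine maass_top1 hHol ZfT (fun N _ => ?_) (fun N _ χ u a ν ε hu hc F => ?_)
    (fun N _ χ u a ν ε hu hc F => ?_) N χ ev f a h
  · rw [zfT_eq]
    exact hSE N
  · exact aMDec_of_concl (conclB1_maass1 hβm hc0 hβ hH hu hc F)
  · rw [zfT_eq]
    exact bConcl2_of_concl (conclB1_maass1 hβm hc0 hβ hH hu hc F) (Pool.Agent.ZP.zfB N)
      (lam_sq_maass1 F)

end Pool.Agent.JO
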