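import Pool.Agent.Lib_helper84.JO.Maass0
import Pool.Agent.Lib_helper84.JO.Maass1
import Pool.Agent.Lib_helper84.JO.MSe1
import Pool.Agent.Lib_helper84.JO.HolMain

/-! # Project JO: the Maass half -/

set_option autoImplicit false

namespace Pool.Agent.JO

theorem maass_statement : MaassStatement := by
  intro N _ χ k ev f a h
  rcases h.weight with ⟨hk, -⟩ | ⟨hk, -⟩
  · subst hk
    exact maass0_final bW_meas one_pos bW_lower
      (fun _ _ _ _ _ _ hu => box_H hu bW_tst bW_nonneg)
      (fun N _ => Pool.Agent.JOS.se_maass0 (Pool.Agent.ZP.zfB N)) N χ ev f a h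
  · subst hk
    exact maass1_final hol_statement bW_meas one_pos bW_lower
      (fun _ _ _ _ _ _ hu => box_H hu bW_tst bW_nonneg)
      (fun N _ => Pool.Agent.JOS.se_maass1 (Pool.Agent.ZP.zfB N)) N χ ev f a h

end Pool.Agent.JO
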